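import Pool.Agent.Lib.MP_30655b_al.TH.Defs

/-! Integral optimal solutions of covering programs with a divisible right hand side. -/

namespace Pool.Agent.Lib.MP_30655b_al.TH

theorem bfs_step {ι κ : Type} [Fintype ι] [DecidableEq ι] (A : κ → ι → ℚ) (c η d : ι → ℚ)
    (hη : ∀ i, 0 ≤ η i) (hs : ∀ i, η i = 0 → d i = 0) (hA : ∀ r, ∑ i, A r i * d i = 0)
    (hc : ∑ i, c i * d i ≤ 0) (hneg : ∃ i, d i < 0) :
    ∃ η' : ι → ℚ, (∀ i, 0 ≤ η' i) ∧ (∀ r, ∑ i, A r i * η' i = ∑ i, A r i * η i) ∧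
      ∑ i, c i * η' i ≤ ∑ i, c i * η i ∧
      (Finset.univ.filter fun i => η' i ≠ 0).card < (Finset.univ.filter fun i => η i ≠ 0).card := by
  obtain ⟨j, hj⟩ := hneg
  obtain ⟨i₀, hi₀, hmin⟩ := Finset.exists_min_image (Finset.univ.filter fun i => d i < 0)
    (fun i => η i / (-d i)) ⟨j, by simp [hj]⟩
  have hd₀ : d i₀ < 0 := by simpa using hi₀
  set e : ℚ := η i₀ / (-d i₀) with he
  have he0 : 0 ≤ e := div_nonneg (hη i₀) (by linarith)
  have hsum : ∀ u : ι → ℚ, ∑ i, u i * (η i + e * d i) = ∑ i, u i * η i + e * ∑ i, u i * d i := by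
    intro u
    rw [Finset.mul_sum, ← Finset.sum_add_distrib]
    exact Finset.sum_congr rfl fun i _ => by ring
  refine ⟨fun i => η i + e * d i, ?_, ?_, ?_, ?_⟩
  · intro i
    by_cases hi : d i < 0
    · have h1 := hmin i (by simp [hi])
      rw [le_div_iff₀ (by linarith)] at h1
      linarith
    · have h1 : 0 ≤ e * d i := mul_nonneg he0 (not_lt.1 hi)
      have h2 := hη i
      linarith
  · intro r
    rw [hsum, hA r]
    ring
  · rw [hsum]
    have h1 := mul_nonneg he0 (neg_nonneg.2 hc)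
    linarith
  · apply Finset.card_lt_card
    rw [Finset.ssubset_iff_of_subset]
    · refine ⟨i₀, ?_, ?_⟩
      · simp only [Finset.mem_filter, Finset.mem_univ, true_and]
        exact fun h => hd₀.ne (hs i₀ h)
      · simp only [Finset.mem_filter, Finset.mem_univ, true_and, not_not]
        rw [he]
        have h1 : d i₀ ≠ 0 := hd₀.ne
        field_simp
        ring
    · intro i hi
      simp only [Finset.mem_filter, Finset.mem_univ, true_and] at hi ⊢
      intro h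
      apply hi
      rw [h, hs i h]
      ring

theorem bfs_step' {ι κ : Type} [Fintype ι] [DecidableEq ι] (A : κ → ι → ℚ) (c η d : ι → ℚ)
    (hc : ∀ i, 0 ≤ c i) (hη : ∀ i, 0 ≤ η i) (hs : ∀ i, η i = 0 → d i = 0)
    (hA : ∀ r, ∑ i, A r i * d i = 0) (hd : ∃ i, d i ≠ 0) :
    ∃ η' : ι → ℚ, (∀ i, 0 ≤ η' i) ∧ (∀ r, ∑ i, A r i * η' i = ∑ i, A r i * η i) ∧
      ∑ i, c i * η' i ≤ ∑ i, c i * η i ∧
      (Finset.univ.filter fun i => η' i ≠ 0).card < (Finset.univ.filter fun i => η i ≠ 0).card := by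
  have hn : ∀ u : ι → ℚ, ∑ i, u i * (-d i) = -∑ i, u i * d i := by
    intro u
    rw [← Finset.sum_neg_distrib]
    exact Finset.sum_congr rfl fun i _ => by ring
  have hex : ∀ d' : ι → ℚ, ∑ i, c i * d' i < 0 → ∃ i, d' i < 0 := by
    intro d' h
    by_contra hno
    push Not at hno
    exact absurd (Finset.sum_nonneg fun i _ => mul_nonneg (hc i) (hno i)) (not_le.2 h)
  have h1 : ∑ i, c i * d i ≤ 0 → (∃ i, d i < 0) → _ := bfs_step A c η d hη hs hA
  have h2 : ∑ i, c i * (-d i) ≤ 0 → (∃ i, -d i < 0) → _ :=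
    bfs_step A c η (fun i => -d i) hη (fun i h => by simp [hs i h])
      (fun r => by rw [hn, hA r, neg_zero])
  rcases lt_trichotomy (∑ i, c i * d i) 0 with h | h | h
  · exact h1 h.le (hex d h)
  · obtain ⟨i, hi⟩ := hd
    rcases lt_or_gt_of_ne hi with h' | h'
    · exact h1 h.le ⟨i, h'⟩
    · exact h2 (by rw [hn, h, neg_zero]) ⟨i, by linarith⟩
  · have h' : ∑ i, c i * (-d i) < 0 := by rw [hn]; linarith
    exact h2 h'.le (hex (fun i => -d i) h')

theorem bfs {ι κ : Type} [Fintype ι] [Fintype κ] (A : κ → ι → ℚ) (b : κ → ℚ) :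
    ∃ N0 : ℕ, 0 < N0 ∧ ∀ N : ℕ, 0 < N → N0 ∣ N → ∀ c : ι → ℚ, (∀ i, 0 ≤ c i) →
      ∀ η : ι → ℚ, (∀ i, 0 ≤ η i) → (∀ r, ∑ i, A r i * η i = N * b r) →
        ∃ ζ : ι → ℕ, (∀ r, ∑ i, A r i * (ζ i : ℚ) = N * b r) ∧
          ∑ i, c i * (ζ i : ℚ) ≤ ∑ i, c i * η i := by
  classical
  have hθ : ∀ T : Finset ι, ∃ θ : ι → ℚ,
      (∃ θ' : ι → ℚ, (∀ i, i ∉ T → θ' i = 0) ∧ ∀ r, ∑ i, A r i * θ' i = b r) →
        (∀ i, i ∉ T → θ i = 0) ∧ ∀ r, ∑ i, A r i * θ i = b r := by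
    intro T
    by_cases h : ∃ θ' : ι → ℚ, (∀ i, i ∉ T → θ' i = 0) ∧ ∀ r, ∑ i, A r i * θ' i = b r
    · obtain ⟨θ, h⟩ := h
      exact ⟨θ, fun _ => h⟩
    · exact ⟨0, fun h' => absurd h' h⟩
  choose θ hθ using hθ
  refine ⟨∏ T : Finset ι, ∏ i, (θ T i).den,
    Finset.prod_pos fun T _ => Finset.prod_pos fun i _ => (θ T i).den_pos, ?_⟩
  intro N hN hdvd c hc
  have hint : ∀ T i, 0 ≤ (N : ℚ) * θ T i → ∃ z : ℕ, (z : ℚ) = N * θ T i := by
    intro T i h0
    have h1 : (θ T i).den ∣ N :=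
      ((Finset.dvd_prod_of_mem (fun i => (θ T i).den) (Finset.mem_univ i)).trans
        (Finset.dvd_prod_of_mem (fun T => ∏ i, (θ T i).den) (Finset.mem_univ T))).trans hdvd
    obtain ⟨k, hk⟩ := h1
    have h2 : (N : ℚ) * θ T i = ((k * (θ T i).num : ℤ) : ℚ) := by
      rw [hk]
      push_cast
      rw [← Rat.mul_den_eq_num]
      ring
    rw [h2] at h0 ⊢
    have h3 : (0 : ℤ) ≤ k * (θ T i).num := by exact_mod_cast h0
    refine ⟨(k * (θ T i).num : ℤ).toNat, ?_⟩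
    rw [← Int.cast_natCast, Int.toNat_of_nonneg h3]
  have hNq : (0 : ℚ) < N := by exact_mod_cast hN
  have key : ∀ n : ℕ, ∀ η : ι → ℚ, (Finset.univ.filter fun i => η i ≠ 0).card = n →
      (∀ i, 0 ≤ η i) → (∀ r, ∑ i, A r i * η i = N * b r) →
        ∃ ζ : ι → ℕ, (∀ r, ∑ i, A r i * (ζ i : ℚ) = N * b r) ∧
          ∑ i, c i * (ζ i : ℚ) ≤ ∑ i, c i * η i := by
    intro n
    induction n using Nat.strong_induction_on with
    | _ n ih =>
      intro η hn hη hA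
      set T := Finset.univ.filter fun i => η i ≠ 0 with hT
      have hTθ := hθ T ⟨fun i => η i / N, fun i hi => by
        have h1 : η i = 0 := by simpa [hT] using hi
        simp [h1], fun r => by
        have h1 : ∑ i, A r i * (η i / N) = (∑ i, A r i * η i) / N := by
          rw [Finset.sum_div]
          exact Finset.sum_congr rfl fun i _ => by ring
        rw [h1, hA r]
        field_simp⟩
      by_cases hd : ∃ i, η i - N * θ T i ≠ 0
      · obtain ⟨η', h1, h2, h3, h4⟩ := bfs_step' A c η (fun i => η i - N * θ T i) hc hη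
          (fun i hi => by
            have h1 : θ T i = 0 := hTθ.1 i (by simp [hT, hi])
            simp [hi, h1])
          (fun r => by
            have h1 : ∑ i, A r i * (η i - N * θ T i) =
                ∑ i, A r i * η i - N * ∑ i, A r i * θ T i := by
              rw [Finset.mul_sum, ← Finset.sum_sub_distrib]
              exact Finset.sum_congr rfl fun i _ => by ring
            rw [h1, hA r, hTθ.2 r, sub_self]) hd
        obtain ⟨ζ, h5, h6⟩ := ih _ (hn ▸ h4) η' rfl h1 (fun r => by rw [h2 r, hA r])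
        exact ⟨ζ, h5, h6.trans h3⟩
      · push Not at hd
        have he : ∀ i, η i = N * θ T i := fun i => sub_eq_zero.1 (hd i)
        choose ζ hζ using fun i => hint T i (he i ▸ hη i)
        have hz : ∀ i, (ζ i : ℚ) = η i := fun i => by rw [hζ i, he i]
        refine ⟨ζ, fun r => ?_, ?_⟩
        · simp only [hz]
          exact hA r
        · simp only [hz]
          exact le_rfl
  exact fun η hη hA => key _ η rfl hη hA

theorem red {ι : Type} [Fintype ι] (l l' : ι → ℕ) :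
    ∃ N0 : ℕ, 0 < N0 ∧ ∀ N : ℕ, 0 < N → N0 ∣ N → (∀ i, l i ≤ N) → (∀ i, l' i ≤ N) →
      ∀ (c : ι → ℕ) (A B τ : ℕ), 0 < τ → ∀ (ξ : ι → ℕ) (x y : ℕ), τ ≤ ∑ i, ξ i →
        τ * N ≤ ∑ i, l i * ξ i + x → τ * N ≤ ∑ i, l' i * ξ i + y →
        ∃ ζ : ι → ℕ, 1 ≤ ∑ i, ζ i ∧
          τ * (∑ i, c i * ζ i + A * (N - ∑ i, l i * ζ i) + B * (N - ∑ i, l' i * ζ i)) ≤
            ∑ i, c i * ξ i + A * x + B * y := by
  classical
  obtain ⟨N0, hN0, H⟩ := bfs (ι := ι ⊕ Fin 4) (κ := Fin 2)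
    (fun r => Sum.elim (fun i => ![(l i : ℚ), (l' i : ℚ)] r)
      (fun j => ![![(1 : ℚ), 0, -1, 0], ![0, 1, 0, -1]] r j)) (fun _ => 1)
  refine ⟨N0, hN0, ?_⟩
  intro N hN hdvd hl hl' c A B τ hτ ξ x y hξ hx hy
  have hτq : (0 : ℚ) < τ := by exact_mod_cast hτ
  have hxq : (τ : ℚ) * N ≤ ∑ i, (l i : ℚ) * ξ i + x := by exact_mod_cast hx
  have hyq : (τ : ℚ) * N ≤ ∑ i, (l' i : ℚ) * ξ i + y := by exact_mod_cast hy
  have hdiv : ∀ u : ι → ℕ, ∑ i, (u i : ℚ) * ((ξ i : ℚ) / τ) = (∑ i, (u i : ℚ) * ξ i) / τ := by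
    intro u
    rw [Finset.sum_div]
    exact Finset.sum_congr rfl fun i _ => by ring
  obtain ⟨ζ, h1, h2⟩ := H N hN hdvd
    (Sum.elim (fun i => (c i : ℚ)) ![(A : ℚ), (B : ℚ), 0, 0])
    (by
      rintro (i | j)
      · simp
      · fin_cases j <;> simp)
    (Sum.elim (fun i => (ξ i : ℚ) / τ) ![(x : ℚ) / τ, (y : ℚ) / τ,
      (∑ i, (l i : ℚ) * ξ i + x - τ * N) / τ, (∑ i, (l' i : ℚ) * ξ i + y - τ * N) / τ])
    (by
      rintro (i | j)
      · exact div_nonneg (Nat.cast_nonneg _) hτq.le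
      · fin_cases j
        · exact div_nonneg (Nat.cast_nonneg _) hτq.le
        · exact div_nonneg (Nat.cast_nonneg _) hτq.le
        · exact div_nonneg (sub_nonneg.2 hxq) hτq.le
        · exact div_nonneg (sub_nonneg.2 hyq) hτq.le)
    (by
      intro r
      fin_cases r
      · simp [Fintype.sum_sum_type, Fin.sum_univ_four, hdiv]
        field_simp
        ring
      · simp [Fintype.sum_sum_type, Fin.sum_univ_four, hdiv]
        field_simp
        ring)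
  have e0 := h1 0
  have e1 := h1 1
  simp [Fintype.sum_sum_type, Fin.sum_univ_four] at e0 e1
  simp [Fintype.sum_sum_type, Fin.sum_univ_four, hdiv] at h2
  have f0 : ∑ i, l i * ζ (Sum.inl i) + ζ (Sum.inr 0) = N + ζ (Sum.inr 2) := by
    have : ((∑ i, l i * ζ (Sum.inl i) + ζ (Sum.inr 0) : ℕ) : ℚ) = (N + ζ (Sum.inr 2) : ℕ) := by
      push_cast
      linarith
    exact_mod_cast this
  have f1 : ∑ i, l' i * ζ (Sum.inl i) + ζ (Sum.inr 1) = N + ζ (Sum.inr 3) := by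
    have : ((∑ i, l' i * ζ (Sum.inl i) + ζ (Sum.inr 1) : ℕ) : ℚ) = (N + ζ (Sum.inr 3) : ℕ) := by
      push_cast
      linarith
    exact_mod_cast this
  have f2 : τ * (∑ i, c i * ζ (Sum.inl i) + A * ζ (Sum.inr 0) + B * ζ (Sum.inr 1)) ≤
      ∑ i, c i * ξ i + A * x + B * y := by
    have h3 : (∑ i, (c i : ℚ) * ζ (Sum.inl i) + A * ζ (Sum.inr 0) + B * ζ (Sum.inr 1)) ≤
        (∑ i, (c i : ℚ) * ξ i + A * x + B * y) / τ := by
      rw [add_div, add_div, mul_div_assoc, mul_div_assoc]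
      linarith
    rw [le_div_iff₀ hτq, mul_comm] at h3
    exact_mod_cast h3
  have f3 : τ * (∑ i, c i * ζ (Sum.inl i) + A * (N - ∑ i, l i * ζ (Sum.inl i)) +
      B * (N - ∑ i, l' i * ζ (Sum.inl i))) ≤ ∑ i, c i * ξ i + A * x + B * y := by
    refine le_trans (Nat.mul_le_mul_left _ ?_) f2
    exact Nat.add_le_add (Nat.add_le_add_left (Nat.mul_le_mul_left _ (by omega)) _)
      (Nat.mul_le_mul_left _ (by omega))
  by_cases hz : 1 ≤ ∑ i, ζ (Sum.inl i)
  · exact ⟨fun i => ζ (Sum.inl i), hz, f3⟩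
  have hz0 : ∀ i, ζ (Sum.inl i) = 0 := by
    intro i
    have := Finset.single_le_sum (f := fun i => ζ (Sum.inl i)) (fun i _ => Nat.zero_le _)
      (Finset.mem_univ i)
    omega
  simp only [hz0, mul_zero, Finset.sum_const_zero, zero_add, Nat.sub_zero] at f3
  have hne : (Finset.univ : Finset ι).Nonempty := by
    rw [Finset.nonempty_iff_ne_empty]
    intro h
    rw [h, Finset.sum_empty] at hξ
    omega
  obtain ⟨i₀, -, hmin⟩ := Finset.exists_min_image Finset.univ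
    (fun i => c i + A * (N - l i) + B * (N - l' i)) hne
  have hsing : ∀ u : ι → ℕ, ∑ i, u i * (Pi.single i₀ 1 : ι → ℕ) i = u i₀ := by
    intro u
    rw [Finset.sum_eq_single i₀]
    · simp
    · intro j _ hj
      simp [hj]
    · simp
  refine ⟨Pi.single i₀ 1, by simp, ?_⟩
  rw [hsing, hsing, hsing]
  by_cases hφ : c i₀ + A * (N - l i₀) + B * (N - l' i₀) ≤ A * N + B * N
  · exact le_trans (Nat.mul_le_mul_left _ hφ) f3
  push Not at hφ
  set φ : ℕ := c i₀ + A * (N - l i₀) + B * (N - l' i₀) with hφdef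
  have g1 : ∀ i, (φ : ℤ) - (A * N + B * N) ≤ c i - A * l i - B * l' i := by
    intro i
    have h3 : ((φ : ℕ) : ℤ) ≤ ((c i + A * (N - l i) + B * (N - l' i) : ℕ) : ℤ) := by
      exact_mod_cast hmin i (Finset.mem_univ i)
    push_cast [hl i, hl' i] at h3
    linarith
  have g2 : ((φ : ℤ) - (A * N + B * N)) * ∑ i, (ξ i : ℤ) ≤
      ∑ i, (c i : ℤ) * ξ i - A * ∑ i, (l i : ℤ) * ξ i - B * ∑ i, (l' i : ℤ) * ξ i := by
    rw [Finset.mul_sum, Finset.mul_sum, Finset.mul_sum, ← Finset.sum_sub_distrib,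
      ← Finset.sum_sub_distrib]
    refine Finset.sum_le_sum fun i _ => ?_
    have h3 := mul_le_mul_of_nonneg_right (g1 i) (Int.natCast_nonneg (ξ i))
    linarith
  have g3 : (0 : ℤ) ≤ (φ : ℤ) - (A * N + B * N) := by
    have : ((A * N + B * N : ℕ) : ℤ) ≤ φ := by exact_mod_cast hφ.le
    push_cast at this
    linarith
  have g4 : (τ : ℤ) ≤ ∑ i, (ξ i : ℤ) := by exact_mod_cast hξ
  have g5 : (τ : ℤ) * N ≤ ∑ i, (l i : ℤ) * ξ i + x := by exact_mod_cast hx
  have g6 : (τ : ℤ) * N ≤ ∑ i, (l' i : ℤ) * ξ i + y := by exact_mod_cast hy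
  have g7 := mul_le_mul_of_nonneg_left g4 g3
  have g8 := mul_le_mul_of_nonneg_left g5 (Int.natCast_nonneg A)
  have g9 := mul_le_mul_of_nonneg_left g6 (Int.natCast_nonneg B)
  have g10 : (τ : ℤ) * φ ≤ ∑ i, (c i : ℤ) * ξ i + A * x + B * y := by nlinarith
  exact_mod_cast g10

end Pool.Agent.Lib.MP_30655b_al.TH
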