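import Pool.Agent.Lib.MP_30655b_al.TH.Defs
import Pool.Agent.Lib.MP_035963_ag.HN.Far

/-! The integral closure of a power of a monomial ideal. -/

open MvPolynomial

namespace Pool.Agent.Lib.MP_30655b_al.TH

open G

variable {σ : Type} [Fintype σ] {K : Type*} [Field K]

theorem exists_finset_gen (S : Set (σ →₀ ℕ)) :
    ∃ V : Finset (σ →₀ ℕ), (V : Set (σ →₀ ℕ)) ⊆ S ∧ ∀ a ∈ S, ∃ v ∈ V, v ≤ a := by
  have h : {a | Minimal (· ∈ S) a}.Finite :=
    WellQuasiOrderedLE.finite_of_isAntichain (setOfPred_minimal_antichain _)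
  refine ⟨h.toFinset, fun a ha => (h.mem_toFinset.1 ha).1, fun a ha => ?_⟩
  obtain ⟨b, h1, h2⟩ := exists_minimal_le_of_wellFoundedLT (· ∈ S) a ha
  exact ⟨b, h.mem_toFinset.2 h2, h1⟩

theorem L_eq_of_gen {S : Set (σ →₀ ℕ)} {V : Finset (σ →₀ ℕ)} (h1 : (V : Set (σ →₀ ℕ)) ⊆ S)
    (h2 : ∀ a ∈ S, ∃ v ∈ V, v ≤ a) : L K S = L K (V : Set (σ →₀ ℕ)) := by
  refine le_antisymm (Ideal.span_le.2 ?_) (L_mono h1)
  rintro _ ⟨a, ha, rfl⟩
  obtain ⟨v, hv, h⟩ := h2 a ha
  obtain ⟨c, rfl⟩ := le_iff_exists_add.1 h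
  change monomial (v + c) (1 : K) ∈ L K _
  rw [← one_mul (1 : K), ← monomial_mul]
  exact Ideal.mul_mem_right _ _ (monomial_mem_L hv)

theorem Uc_up (V : Finset (σ →₀ ℕ)) (τ : ℕ) : UpC (Uc V τ) := by
  intro a b ha w hw
  refine ha w ⟨hw.1, fun v hv => lt_of_le_of_lt ?_ (hw.2 v hv)⟩
  refine Finset.sum_le_sum fun i _ => mul_le_mul_of_nonneg_left ?_ (hw.1 i)
  simp

theorem clo_weight (w : σ → ℕ) (a : σ →₀ ℕ) : Finsupp.weight w a = ∑ i, w i * a i := by
  rw [Finsupp.weight_apply, Finsupp.sum_fintype _ _ (by simp)]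
  exact Finset.sum_congr rfl fun i _ => by rw [smul_eq_mul, mul_comm]

theorem farkas_alt (V : Finset (σ →₀ ℕ)) (τ : ℕ) (a : σ →₀ ℕ) :
    (∃ w : σ → ℕ, ∀ v ∈ V, Finsupp.weight w a < τ * Finsupp.weight w v) ∨
      ∃ n : (σ →₀ ℕ) → ℕ, 0 < ∑ v ∈ V, n v ∧
        ∀ i, τ * ∑ v ∈ V, n v * v i ≤ (∑ v ∈ V, n v) * a i := by
  classical
  rcases MP_035963_ag.HN.farkas (σ := σ) (ι := σ ⊕ V)
    (Sum.elim (fun i => Pi.single i 1) fun x i => (τ : ℚ) * x.1 i - a i)
    (Sum.elim (fun _ => 0) fun _ => 1) with ⟨u, hu⟩ | ⟨l, h1, h2, h3⟩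
  · obtain ⟨n, z, hn, hz⟩ := MP_035963_ag.HN.clear_den u
    have hn' : (0 : ℚ) < n := by exact_mod_cast hn
    have h1 : ∀ i, (((z i).toNat : ℕ) : ℚ) = n * u i := fun i => by
      have h2 : 0 ≤ u i := by simpa using hu (Sum.inl i)
      have h3 : 0 ≤ z i := by
        have : (0 : ℚ) ≤ z i := by rw [hz]; positivity
        exact_mod_cast this
      rw [← hz, ← Int.cast_natCast, Int.toNat_of_nonneg h3]
    refine Or.inl ⟨fun i => (z i).toNat, fun v hv => ?_⟩
    have h2 := hu (Sum.inr ⟨v, hv⟩)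
    simp only [Sum.elim_inr, dotProduct] at h2
    rw [clo_weight, clo_weight, ← Nat.cast_lt (α := ℚ)]
    push_cast
    simp only [h1]
    have h3 : (τ : ℚ) * ∑ i, n * u i * v i - ∑ i, n * u i * a i =
        n * ∑ i, u i * (τ * v i - a i) := by
      simp only [Finset.mul_sum, ← Finset.sum_sub_distrib]
      exact Finset.sum_congr rfl fun i _ => by ring
    have h4 := mul_le_mul_of_nonneg_left h2 hn'.le
    linarith
  · obtain ⟨n, z, hn, hz⟩ := MP_035963_ag.HN.clear_den fun x : V => l (Sum.inr x)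
    have hn' : (0 : ℚ) < n := by exact_mod_cast hn
    have h4 : ∀ x, (((z x).toNat : ℕ) : ℚ) = n * l (Sum.inr x) := fun x => by
      have h3 : 0 ≤ z x := by
        have : (0 : ℚ) ≤ z x := by rw [hz]; exact mul_nonneg hn'.le (h1 _)
        exact_mod_cast this
      rw [← hz, ← Int.cast_natCast, Int.toNat_of_nonneg h3]
    simp only [Fintype.sum_sum_type, Sum.elim_inl, Sum.elim_inr, mul_zero, mul_one,
      Finset.sum_const_zero, zero_add] at h2 h3
    refine Or.inr ⟨fun v => if h : v ∈ V then (z ⟨v, h⟩).toNat else 0, ?_, fun i => ?_⟩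
    · rw [← Finset.sum_coe_sort, ← Nat.cast_pos (α := ℚ)]
      simp only [Finset.coe_mem, dif_pos, Nat.cast_sum, h4, ← Finset.mul_sum]
      exact mul_pos hn' h3
    · rw [← Finset.sum_coe_sort, ← Finset.sum_coe_sort V, ← Nat.cast_le (α := ℚ)]
      simp only [Finset.coe_mem, dif_pos, Nat.cast_sum, Nat.cast_mul, h4]
      have h5 := congrFun h2 i
      simp only [Pi.add_apply, Finset.sum_apply, Pi.smul_apply, smul_eq_mul, Pi.single_apply,
        mul_ite, mul_one, mul_zero, Finset.sum_ite_eq, Finset.mem_univ, if_true,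
        Pi.zero_apply] at h5
      have h6 : (τ : ℚ) * ∑ x : V, n * l (Sum.inr x) * x.1 i -
          (∑ x : V, n * l (Sum.inr x)) * a i =
          n * ∑ x : V, l (Sum.inr x) * (τ * x.1 i - a i) := by
        simp only [Finset.mul_sum, Finset.sum_mul, ← Finset.sum_sub_distrib]
        exact Finset.sum_congr rfl fun i _ => by ring
      have h7 := mul_nonneg hn'.le (h1 (Sum.inl i))
      have h8 := congrArg (fun t => (n : ℚ) * t) h5
      simp only [mul_add, mul_zero] at h8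
      linarith

theorem mem_Uc_iff (V : Finset (σ →₀ ℕ)) (τ : ℕ) (a : σ →₀ ℕ) :
    a ∈ Uc V τ ↔ ∀ w : σ → ℕ, ∃ v ∈ V, τ * Finsupp.weight w v ≤ Finsupp.weight w a := by
  constructor
  · intro h w
    by_contra hc
    push Not at hc
    refine h (fun i => w i) ⟨fun i => Nat.cast_nonneg _, fun v hv => ?_⟩
    have := hc v hv
    rw [clo_weight, clo_weight] at this
    simp only [wt]
    exact_mod_cast this
  · intro h w hw
    rcases farkas_alt V τ a with ⟨u, hu⟩ | ⟨n, h1, h2⟩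
    · obtain ⟨v, hv, h3⟩ := h u
      exact absurd (hu v hv) (not_lt.2 h3)
    · obtain ⟨v₀, hv₀, h3⟩ := Finset.exists_ne_zero_of_sum_ne_zero h1.ne'
      have h4 : ∑ v ∈ V, (n v : ℝ) * wt w a < ∑ v ∈ V, (n v : ℝ) * (τ * wt w v) :=
        Finset.sum_lt_sum (fun v hv => mul_le_mul_of_nonneg_left (hw.2 v hv).le (Nat.cast_nonneg _))
          ⟨v₀, hv₀, mul_lt_mul_of_pos_left (hw.2 v₀ hv₀) (Nat.cast_pos.2 (Nat.pos_of_ne_zero h3))⟩
      refine absurd h4 (not_lt.2 ?_)
      have h5 : ∀ i, (τ : ℝ) * ∑ v ∈ V, (n v : ℝ) * v i ≤ (∑ v ∈ V, (n v : ℝ)) * a i :=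
        fun i => by exact_mod_cast h2 i
      have h6 := Finset.sum_le_sum fun i (_ : i ∈ Finset.univ) =>
        mul_le_mul_of_nonneg_left (h5 i) (hw.1 i)
      refine le_of_eq_of_le ?_ (h6.trans_eq ?_)
      · simp only [wt, Finset.mul_sum]
        rw [Finset.sum_comm]
        exact Finset.sum_congr rfl fun i _ => Finset.sum_congr rfl fun v _ => by ring
      · simp only [wt, Finset.mul_sum, Finset.sum_mul]
        rw [Finset.sum_comm]
        exact Finset.sum_congr rfl fun i _ => Finset.sum_congr rfl fun v _ => by ring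

theorem intClosure_pow (V : Finset (σ →₀ ℕ)) (hV : V.Nonempty) (τ : ℕ) :
    intClosure (L K (V : Set (σ →₀ ℕ)) ^ τ) = L K (Uc V τ) := by
  classical
  apply le_antisymm
  · intro f hf
    obtain ⟨k, -, u, hu, heq⟩ := isIntOver_iff_range.1 hf
    rw [mem_L (Uc_up V τ)]
    intro a ha
    refine (mem_Uc_iff V τ a).2 fun w => ?_
    obtain ⟨v, hv, h⟩ := Finset.exists_min_image V (Finsupp.weight w) hV
    exact ⟨v, hv, (mem_L (W_up _ _)).1 (integral_mem_W w
      (ideal_pow_le_W w (L_mono (V := W w (Finsupp.weight w v)) fun x hx => h x hx) τ) u hu heq)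
      a ha⟩
  · refine Ideal.span_le.2 ?_
    rintro _ ⟨a, ha, rfl⟩
    rcases farkas_alt V τ a with ⟨u, hu⟩ | ⟨n, h1, h2⟩
    · obtain ⟨v, hv, h3⟩ := (mem_Uc_iff V τ a).1 ha u
      exact absurd (hu v hv) (not_lt.2 h3)
    have h3 : ∀ T ⊆ V, monomial (∑ v ∈ T, n v • v) (1 : K) ∈
        L K (V : Set (σ →₀ ℕ)) ^ ∑ v ∈ T, n v := by
      intro T
      induction T using Finset.induction_on with
      | empty => simp
      | insert x T hx ih =>
        intro hT
        rw [Finset.sum_insert hx, Finset.sum_insert hx, pow_add, ← one_mul (1 : K),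
          ← monomial_mul]
        refine Ideal.mul_mem_mul ?_ (ih ((Finset.subset_insert _ _).trans hT))
        rw [← one_pow (n x), ← monomial_pow]
        exact Ideal.pow_mem_pow (monomial_mem_L (hT (Finset.mem_insert_self _ _))) _
    set k := ∑ v ∈ V, n v with hk
    have h4 : τ • ∑ v ∈ V, n v • v ≤ k • a := fun i => by
      simpa [Finsupp.finsetSum_apply] using h2 i
    obtain ⟨c, hc⟩ := le_iff_exists_add.1 h4
    have hm : monomial a (1 : K) ^ k ∈ (L K (V : Set (σ →₀ ℕ)) ^ τ) ^ k := by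
      rw [monomial_pow, one_pow, hc, ← one_mul (1 : K), ← monomial_mul, ← pow_mul, mul_comm τ k,
        pow_mul]
      refine Ideal.mul_mem_right _ _ ?_
      rw [← one_pow τ, ← monomial_pow]
      exact Ideal.pow_mem_pow (h3 V subset_rfl) _
    refine isIntOver_iff_range.2
      ⟨k, h1, fun i => if i = k then -(monomial a 1) ^ k else 0, fun i => ?_, ?_⟩
    · by_cases hi : i = k
      · simp only [hi, if_true]
        exact neg_mem hm
      · simp [hi]
    · rw [Finset.sum_eq_single 0]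
      · simp
      · intro i hi hi0
        have := Finset.mem_range.1 hi
        have hne : ¬ k - i = k := by omega
        simp only [if_neg hne, zero_mul]
      · intro h
        exact absurd (Finset.mem_range.2 h1) h

end Pool.Agent.Lib.MP_30655b_al.TH
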