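import Pool.Agent.Lib.MP_30655b_al.GMono
import Pool.Agent.Lib.MP_30655b_al.GRees

/-! Combinatorial data attached to an up-closed set of exponents. -/

open MvPolynomial

namespace Pool.Agent.Lib.MP_30655b_al.TH

open G

variable {σ : Type}

/-- `i` is a vertex of the degree complex of `U` in degree `a`. -/
def Vtx (U : Set (σ →₀ ℕ)) (a : σ →₀ ℕ) (i : σ) : Prop :=
  ∀ n : ℕ, a + Finsupp.single i n ∉ U

/-- `i k` is an edge of the degree complex of `U` in degree `a`. -/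
def Edge (U : Set (σ →₀ ℕ)) (a : σ →₀ ℕ) (i k : σ) : Prop :=
  ∀ n : ℕ, a + Finsupp.single i n + Finsupp.single k n ∉ U

/-- Every degree complex is void or connected with at least two vertices. -/
def Good (U : Set (σ →₀ ℕ)) : Prop :=
  ∀ a, a ∉ U → (∃ k, Vtx U a k) ∧ (∀ i, ∃ k, k ≠ i ∧ Vtx U a k) ∧
    ∀ S : Set σ, (∀ i, i ∈ S → ∀ k, k ∉ S → ¬ Edge U a i k) →
      ∀ i, i ∈ S → ∀ k, k ∉ S → Vtx U a i → Vtx U a k → False

/-- Membership in `U` does not depend on a coordinate once it is at least `N`. -/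
def Stab (U : Set (σ →₀ ℕ)) (N : ℕ) : Prop :=
  ∀ (a : σ →₀ ℕ) (i : σ), N ≤ a i → a + Finsupp.single i 1 ∈ U → a ∈ U

/-- There is a weakly regular pair in the ideal of the variables. -/
def Dep2 (K : Type*) [Field K] (U : Set (σ →₀ ℕ)) : Prop :=
  ∃ f ∈ Ideal.span (Set.range (X : σ → MvPolynomial σ K)),
    ∃ g ∈ Ideal.span (Set.range (X : σ → MvPolynomial σ K)),
      RingTheory.Sequence.IsWeaklyRegular (MvPolynomial σ K ⧸ L K U) [f, g]

/-- Real weight of an exponent. -/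
noncomputable def wt [Fintype σ] (w : σ → ℝ) (a : σ →₀ ℕ) : ℝ := ∑ i, w i * (a i : ℝ)

/-- The weight `w` separates `a` from `τ` times the Newton polyhedron of `V`. -/
def Dv [Fintype σ] (V : Finset (σ →₀ ℕ)) (τ : ℕ) (a : σ →₀ ℕ) (w : σ → ℝ) : Prop :=
  (∀ i, 0 ≤ w i) ∧ ∀ v ∈ V, wt w a < τ * wt w v

/-- Lattice points of `τ` times the Newton polyhedron of `V`. -/
def Uc [Fintype σ] (V : Finset (σ →₀ ℕ)) (τ : ℕ) : Set (σ →₀ ℕ) := {a | ∀ w, ¬ Dv V τ a w}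

/-- Lattice points cut out by a family of inequalities at level `τ`. -/
def Uf {ι : Type} (w : ι → σ → ℕ) (c : ι → ℕ) (τ : ℕ) : Set (σ →₀ ℕ) :=
  {a | ∀ j, τ * c j ≤ Finsupp.weight (w j) a}

/-- The weights of the family of examples, with moduli `p + 1` and `q + 1`. -/
def exW (p q : ℕ) : Fin 7 → Fin 8 → ℕ :=
  ![![0, 0, p + 1, p + 1, 0, 1, 1, 1], ![p + 1, p + 1, 0, 0, p + 1, p, p, p],
    ![0, q + 1, 0, q + 1, 1, 1, 0, 1], ![q + 1, 0, q + 1, 0, q, q, q + 1, q],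
    ![0, 0, 0, 0, 1, 1, 0, 0], ![0, 0, 0, 0, 0, 0, 1, 1], ![1, 1, 1, 1, 1, 1, 1, 1]]

/-- The right hand sides of the family of examples. -/
def exC (p q N A B : ℕ) : Fin 7 → ℕ :=
  ![N + B, N + p * (A + B), N + A, N + q * (A + B), A, B, A + B + 1]

theorem weight8 (w : Fin 8 → ℕ) (a : Fin 8 →₀ ℕ) : Finsupp.weight w a =
    a 0 * w 0 + a 1 * w 1 + a 2 * w 2 + a 3 * w 3 + a 4 * w 4 + a 5 * w 5 + a 6 * w 6 +
      a 7 * w 7 := by
  rw [Finsupp.weight_apply, Finsupp.sum_fintype _ _ (by simp)]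
  simp [Fin.sum_univ_eight]

theorem mem_ex (p q N A B τ : ℕ) (a : Fin 8 →₀ ℕ) : a ∈ Uf (exW p q) (exC p q N A B) τ ↔
    τ * (N + B) ≤ (p + 1) * (a 2 + a 3) + a 5 + a 6 + a 7 ∧
    τ * (N + p * (A + B)) ≤ (p + 1) * (a 0 + a 1) + p * (a 4 + a 5 + a 6 + a 7) + a 4 ∧
    τ * (N + A) ≤ (q + 1) * (a 1 + a 3) + a 4 + a 5 + a 7 ∧
    τ * (N + q * (A + B)) ≤ (q + 1) * (a 0 + a 2) + q * (a 4 + a 5 + a 6 + a 7) + a 6 ∧
    τ * A ≤ a 4 + a 5 ∧ τ * B ≤ a 6 + a 7 ∧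
    τ * (A + B + 1) ≤ a 0 + a 1 + a 2 + a 3 + a 4 + a 5 + a 6 + a 7 := by
  simp only [Uf, Set.mem_ofPred_eq, Fin.forall_fin_succ, weight8, exW, exC]
  simp only [Matrix.cons_val_zero, Matrix.cons_val_succ, Matrix.cons_val, IsEmpty.forall_iff,
    and_true]
  refine and_congr ?_ (and_congr ?_ (and_congr ?_ (and_congr ?_ (and_congr ?_ (and_congr ?_ ?_)))))
  all_goals
    refine iff_of_eq (congrArg _ ?_)
    ring

end Pool.Agent.Lib.MP_30655b_al.TH
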