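import Pool.Agent.Lib.MP_30655b_al.TH.Defs

/-! Degree complexes of the family of examples. -/

namespace Pool.Agent.Lib.MP_30655b_al.TH

open G

variable {σ ι : Type}

theorem Uf_up (w : ι → σ → ℕ) (c : ι → ℕ) (τ : ℕ) : UpC (Uf w c τ) := fun α β h j => by
  rw [map_add]
  exact (h j).trans (Nat.le_add_right _ _)

theorem exists_bound_c [Fintype ι] (c : ι → ℕ) (τ : ℕ) : ∃ N, ∀ j, τ * c j ≤ N :=
  ⟨τ * ∑ j, c j, fun j => Nat.mul_le_mul_left _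
    (Finset.single_le_sum (fun _ _ => Nat.zero_le _) (Finset.mem_univ j))⟩

theorem not_mem_Uf {w : ι → σ → ℕ} {c : ι → ℕ} {τ : ℕ} {a : σ →₀ ℕ} :
    a ∉ Uf w c τ ↔ ∃ j, Finsupp.weight (w j) a < τ * c j := by
  simp [Uf]

theorem Uf_stab [Fintype ι] (w : ι → σ → ℕ) (c : ι → ℕ) (τ : ℕ) : ∃ N, Stab (Uf w c τ) N := by
  obtain ⟨N, hN⟩ := exists_bound_c c τ
  refine ⟨N, fun a i hi h j => ?_⟩
  by_cases hw : w j i = 0
  · simpa [Finsupp.weight_single, hw] using h j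
  · exact (hN j).trans (hi.trans (Finsupp.le_weight _ hw a))

theorem edge_Uf [Fintype ι] (w : ι → σ → ℕ) (c : ι → ℕ) (τ : ℕ) (a : σ →₀ ℕ) (i k : σ) :
    Edge (Uf w c τ) a i k ↔ ∃ j, Finsupp.weight (w j) a < τ * c j ∧ w j i = 0 ∧ w j k = 0 := by
  obtain ⟨N, hN⟩ := exists_bound_c c τ
  constructor
  · intro h
    obtain ⟨j, hj⟩ := not_mem_Uf.1 (h N)
    simp only [map_add, Finsupp.weight_single, smul_eq_mul] at hj
    have h1 := hN j
    refine ⟨j, by omega, ?_, ?_⟩ <;> by_contra hc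
    · have := Nat.le_mul_of_pos_right N (Nat.pos_of_ne_zero hc); omega
    · have := Nat.le_mul_of_pos_right N (Nat.pos_of_ne_zero hc); omega
  · rintro ⟨j, h1, h2, h3⟩ n
    exact not_mem_Uf.2 ⟨j, by simpa [Finsupp.weight_single, h2, h3] using h1⟩

theorem vtx_Uf [Fintype ι] (w : ι → σ → ℕ) (c : ι → ℕ) (τ : ℕ) (a : σ →₀ ℕ) (i : σ) :
    Vtx (Uf w c τ) a i ↔ ∃ j, Finsupp.weight (w j) a < τ * c j ∧ w j i = 0 := by
  obtain ⟨N, hN⟩ := exists_bound_c c τ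
  constructor
  · intro h
    obtain ⟨j, hj⟩ := not_mem_Uf.1 (h N)
    simp only [map_add, Finsupp.weight_single, smul_eq_mul] at hj
    have h1 := hN j
    refine ⟨j, by omega, ?_⟩
    by_contra hc
    have := Nat.le_mul_of_pos_right N (Nat.pos_of_ne_zero hc); omega
  · rintro ⟨j, h1, h2⟩ n
    exact not_mem_Uf.2 ⟨j, by simpa [Finsupp.weight_single, h2] using h1⟩

theorem slack12 {p q N A B τ : ℕ} (hA : A + p = 2 * N) (a : Fin 8 →₀ ℕ) :
    (Finsupp.weight (exW p q 0) a : ℤ) - τ * exC p q N A B 0 +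
      ((Finsupp.weight (exW p q 1) a : ℤ) - τ * exC p q N A B 1) =
      (p + 1) * ((Finsupp.weight (exW p q 6) a : ℤ) - τ * exC p q N A B 6) + τ := by
  have h : (A : ℤ) + p = 2 * N := by exact_mod_cast hA
  simp only [weight8, exW, exC, Matrix.cons_val]
  push_cast
  linear_combination (τ : ℤ) * h

theorem slack34 {p q N A B τ : ℕ} (hB : B + q = 2 * N) (a : Fin 8 →₀ ℕ) :
    (Finsupp.weight (exW p q 2) a : ℤ) - τ * exC p q N A B 2 +
      ((Finsupp.weight (exW p q 3) a : ℤ) - τ * exC p q N A B 3) =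
      (q + 1) * ((Finsupp.weight (exW p q 6) a : ℤ) - τ * exC p q N A B 6) + τ := by
  have h : (B : ℤ) + q = 2 * N := by exact_mod_cast hB
  simp only [weight8, exW, exC, Matrix.cons_val]
  push_cast
  linear_combination (τ : ℤ) * h

theorem two_zeros (p q : ℕ) (j : Fin 7) (hj : j ≠ 6) :
    ∃ i k : Fin 8, i ≠ k ∧ exW p q j i = 0 ∧ exW p q j k = 0 := by
  fin_cases j
  · exact ⟨0, 1, by decide, rfl, rfl⟩
  · exact ⟨2, 3, by decide, rfl, rfl⟩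
  · exact ⟨0, 2, by decide, rfl, rfl⟩
  · exact ⟨1, 3, by decide, rfl, rfl⟩
  · exact ⟨0, 1, by decide, rfl, rfl⟩
  · exact ⟨0, 1, by decide, rfl, rfl⟩
  · exact absurd rfl hj

theorem ne_six {p q : ℕ} {j : Fin 7} {i : Fin 8} (h : exW p q j i = 0) : j ≠ 6 := by
  rintro rfl
  fin_cases i <;> simp [exW] at h

theorem common_zero (p q : ℕ) (j j' : Fin 7) (hj : j ≠ 6) (hj' : j' ≠ 6) :
    (∃ i : Fin 8, exW p q j i = 0 ∧ exW p q j' i = 0) ∨ (j = 0 ∧ j' = 1) ∨ (j = 1 ∧ j' = 0) ∨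
      (j = 2 ∧ j' = 3) ∨ (j = 3 ∧ j' = 2) := by
  fin_cases j <;> fin_cases j' <;>
    first
    | exact absurd rfl hj
    | exact absurd rfl hj'
    | exact Or.inl ⟨0, rfl, rfl⟩
    | exact Or.inl ⟨1, rfl, rfl⟩
    | exact Or.inl ⟨2, rfl, rfl⟩
    | exact Or.inl ⟨3, rfl, rfl⟩
    | simp

theorem ex_good {p q N A B τ : ℕ} (hA : A + p = 2 * N) (hB : B + q = 2 * N) (hqp : q ≤ p)
    (hτ : τ ≤ p) (hj : ∀ j : ℕ, τ + 2 ≤ (p + 1) * j → τ < (q + 1) * j) :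
    Good (Uf (exW p q) (exC p q N A B) τ) := by
  intro a ha
  set Vi : Fin 7 → Prop := fun j => Finsupp.weight (exW p q j) a < τ * exC p q N A B j with hVi
  have cast : ∀ j, Vi j ↔ (Finsupp.weight (exW p q j) a : ℤ) - τ * exC p q N A B j < 0 :=
    fun j => by rw [sub_neg]; exact_mod_cast Iff.rfl
  have e1 := slack12 (q := q) (B := B) (τ := τ) hA a
  have e2 := slack34 (p := p) (A := A) (τ := τ) hB a
  have c0 := cast 0
  have c1 := cast 1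
  have c2 := cast 2
  have c3 := cast 3
  have c6 := cast 6
  generalize (Finsupp.weight (exW p q 0) a : ℤ) - τ * exC p q N A B 0 = s0 at e1 c0
  generalize (Finsupp.weight (exW p q 1) a : ℤ) - τ * exC p q N A B 1 = s1 at e1 c1
  generalize (Finsupp.weight (exW p q 2) a : ℤ) - τ * exC p q N A B 2 = s2 at e2 c2
  generalize (Finsupp.weight (exW p q 3) a : ℤ) - τ * exC p q N A B 3 = s3 at e2 c3
  generalize (Finsupp.weight (exW p q 6) a : ℤ) - τ * exC p q N A B 6 = s6 at e1 e2 c6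
  have hτ' : (τ : ℤ) ≤ p := by exact_mod_cast hτ
  have hqp' : (q : ℤ) ≤ p := by exact_mod_cast hqp
  have hp0 : (0 : ℤ) ≤ p := Nat.cast_nonneg p
  have hq0 : (0 : ℤ) ≤ q := Nat.cast_nonneg q
  have ht0 : (0 : ℤ) ≤ τ := Nat.cast_nonneg τ
  have k6 : Vi 6 → Vi 0 ∨ Vi 1 := by
    rw [c0, c1, c6]
    intro h
    by_contra hc
    push Not at hc
    nlinarith [hc.1, hc.2]
  have k01 : Vi 0 → Vi 1 → Vi 2 ∨ Vi 3 := by
    rw [c0, c1, c2, c3]
    intro h0 h1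
    by_contra hc
    push Not at hc
    have h6 : 0 ≤ -s6 := by nlinarith
    obtain ⟨j, hj'⟩ := Int.eq_ofNat_of_zero_le h6
    obtain rfl : s6 = -j := by omega
    have h7 : ((τ + 2 : ℕ) : ℤ) ≤ ((p + 1) * j : ℕ) := by push_cast; linarith
    have h8 : (τ : ℤ) < ((q + 1) * j : ℕ) := by exact_mod_cast hj j (by exact_mod_cast h7)
    push_cast at h8
    linarith [hc.1, hc.2]
  have k23 : Vi 2 → Vi 3 → Vi 0 ∨ Vi 1 := fun h2 h3 => k6 (by
    rw [c2] at h2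
    rw [c3] at h3
    rw [c6]
    nlinarith)
  obtain ⟨j, hj6, hjv⟩ : ∃ j, j ≠ 6 ∧ Vi j := by
    obtain ⟨j, hj⟩ := not_mem_Uf.1 ha
    by_cases h : j = 6
    · subst h
      rcases k6 hj with h | h
      · exact ⟨0, by decide, h⟩
      · exact ⟨1, by decide, h⟩
    · exact ⟨j, h, hj⟩
  obtain ⟨i, k, hik, hi, hk⟩ := two_zeros p q j hj6
  have vi := (vtx_Uf _ _ _ _ _).2 ⟨j, hjv, hi⟩
  have vk := (vtx_Uf _ _ _ _ _).2 ⟨j, hjv, hk⟩
  refine ⟨⟨i, vi⟩, fun l => ?_, fun S hS i hi k hk h1 h2 => ?_⟩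
  · by_cases h : i = l
    · exact ⟨k, fun e => hik (h.trans e.symm), vk⟩
    · exact ⟨i, h, vi⟩
  have step : ∀ j, Vi j → ∀ x y, exW p q j x = 0 → exW p q j y = 0 → x ∈ S → y ∈ S :=
    fun j hj x y hx hy hS' => by
      by_contra hc
      exact hS x hS' y hc ((edge_Uf _ _ _ _ _ _).2 ⟨j, hj, hx, hy⟩)
  obtain ⟨j1, p1, q1⟩ := (vtx_Uf _ _ _ _ _).1 h1
  obtain ⟨j2, p2, q2⟩ := (vtx_Uf _ _ _ _ _).1 h2
  apply hk
  rcases common_zero p q j1 j2 (ne_six q1) (ne_six q2) with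
    ⟨x, x1, x2⟩ | ⟨rfl, rfl⟩ | ⟨rfl, rfl⟩ | ⟨rfl, rfl⟩ | ⟨rfl, rfl⟩
  · exact step j2 p2 x k x2 q2 (step j1 p1 i x q1 x1 hi)
  · rcases k01 p1 p2 with h | h
    · exact step 1 p2 2 k rfl q2 (step 2 h 0 2 rfl rfl (step 0 p1 i 0 q1 rfl hi))
    · exact step 1 p2 3 k rfl q2 (step 3 h 1 3 rfl rfl (step 0 p1 i 1 q1 rfl hi))
  · rcases k01 p2 p1 with h | h
    · exact step 0 p2 0 k rfl q2 (step 2 h 2 0 rfl rfl (step 1 p1 i 2 q1 rfl hi))
    · exact step 0 p2 1 k rfl q2 (step 3 h 3 1 rfl rfl (step 1 p1 i 3 q1 rfl hi))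
  · rcases k23 p1 p2 with h | h
    · exact step 3 p2 1 k rfl q2 (step 0 h 0 1 rfl rfl (step 2 p1 i 0 q1 rfl hi))
    · exact step 3 p2 3 k rfl q2 (step 1 h 2 3 rfl rfl (step 2 p1 i 2 q1 rfl hi))
  · rcases k23 p2 p1 with h | h
    · exact step 2 p2 0 k rfl q2 (step 0 h 1 0 rfl rfl (step 3 p1 i 1 q1 rfl hi))
    · exact step 2 p2 2 k rfl q2 (step 1 h 3 2 rfl rfl (step 3 p1 i 3 q1 rfl hi))

theorem ex_not_good {p q N A B : ℕ} (hA : A + p = 2 * N) (hB : B + q = 2 * N) (hN : p < N)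
    (hqp : q + 2 ≤ p) : ¬ Good (Uf (exW p q) (exC p q N A B) (q + 1)) := by
  obtain ⟨d, rfl⟩ := Nat.exists_eq_add_of_le hqp
  obtain ⟨e, rfl⟩ := Nat.exists_eq_add_of_lt hN
  obtain rfl : A = q + 2 + d + 2 * e + 2 := by omega
  obtain rfl : B = q + 2 * d + 2 * e + 6 := by omega
  intro h
  let a : Fin 8 →₀ ℕ := Finsupp.equivFunOnFinite.symm
    ![0, 0, 0, 0, (e + 2) * (q + 1), (q + 2 + d + e) * (q + 1) + q, (d + e + 3) * (q + 1) + q,
      (q + 2 + d + e) * (q + 1) + 1]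
  have v0 := (vtx_Uf (exW (q + 2 + d) q) (exC (q + 2 + d) q (q + 2 + d + e + 1)
      (q + 2 + d + 2 * e + 2) (q + 2 * d + 2 * e + 6)) (q + 1) a 0).2 ⟨0, by
    simp only [weight8, exW, exC, a, Matrix.cons_val, Finsupp.equivFunOnFinite_symm_apply_apply]
    nlinarith, rfl⟩
  have v2 := (vtx_Uf (exW (q + 2 + d) q) (exC (q + 2 + d) q (q + 2 + d + e + 1)
      (q + 2 + d + 2 * e + 2) (q + 2 * d + 2 * e + 6)) (q + 1) a 2).2 ⟨1, by
    simp only [weight8, exW, exC, a, Matrix.cons_val, Finsupp.equivFunOnFinite_symm_apply_apply]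
    nlinarith, rfl⟩
  refine (h a (by simpa using v0 0)).2.2 {2, 3} (fun i hi k hk hE => ?_) 2 (by simp) 0 (by simp)
    v2 v0
  obtain ⟨j, h1, h2, h3⟩ := (edge_Uf _ _ _ _ _ _).1 hE
  fin_cases j
  · rcases hi with rfl | rfl <;> simp [exW] at h2
  · fin_cases k <;> simp [exW] at h3 hk
  all_goals
    first
    | exact ne_six h2 rfl
    | (simp only [weight8, exW, exC, a, Matrix.cons_val, Fin.reduceFinMk,
        Finsupp.equivFunOnFinite_symm_apply_apply] at h1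
       nlinarith)

end Pool.Agent.Lib.MP_30655b_al.TH
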