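import Pool.Agent.Lib.MP_30655b_al.TH.Bfs

/-! The polyhedra of the family of examples are integral. -/

namespace Pool.Agent.Lib.MP_30655b_al.TH

theorem other {p N A P Q z s : ℕ} (hA : A + p = 2 * N) (hp : p < N) (hs : 1 ≤ s)
    (h : P + Q + z = (p + 1) * s) : ∃ u, u + (N - P) = A + z ∧ N ≤ Q + u := by
  have h1 : p + 1 ≤ (p + 1) * s := Nat.le_mul_of_pos_right _ hs
  exact ⟨A + z - (N - P), by omega, by omega⟩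

theorem side {p N A τ a b z v w : ℕ} (hA : A + p = 2 * N) (hp : p < N) (hz : a + b = τ * A + z)
    (l₁ l₂ ξ : Fin 6 → ℕ) (h1 : τ * N ≤ ∑ i, l₁ i * ξ i + b) (h2 : τ * N ≤ ∑ i, l₂ i * ξ i + a)
    (j : Fin 6) (hs : ∀ ζ : Fin 6 → ℕ,
      ∑ i, l₁ i * ζ i + ∑ i, l₂ i * ζ i + ζ j = (p + 1) * ∑ i, ζ i) :
    ∃ (l : Fin 6 → ℕ) (x d m : ℕ), (l = l₁ ∨ l = l₂) ∧ τ * N ≤ ∑ i, l i * ξ i + x ∧
      a * v + b * w = m * (τ * A + z) + d * x ∧ ∀ ζ : Fin 6 → ℕ, 1 ≤ ∑ i, ζ i →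
        ∃ a' b', a' + b' = A + ζ j ∧ N ≤ ∑ i, l₁ i * ζ i + b' ∧ N ≤ ∑ i, l₂ i * ζ i + a' ∧
          a' * v + b' * w = m * (A + ζ j) + d * (N - ∑ i, l i * ζ i) := by
  rcases le_total v w with e | e
  · obtain ⟨d, rfl⟩ := Nat.exists_eq_add_of_le e
    refine ⟨l₁, b, d, v, Or.inl rfl, h1, by rw [← hz]; ring, fun ζ hζ => ?_⟩
    obtain ⟨u, u1, u2⟩ := other hA hp hζ (hs ζ)
    exact ⟨u, _, u1, by omega, u2, by rw [← u1]; ring⟩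
  · obtain ⟨d, rfl⟩ := Nat.exists_eq_add_of_le e
    refine ⟨l₂, a, d, w, Or.inr rfl, h2, by rw [← hz]; ring, fun ζ hζ => ?_⟩
    obtain ⟨u, u1, u2⟩ := other (P := ∑ i, l₂ i * ζ i) (Q := ∑ i, l₁ i * ζ i) (z := ζ j) hA hp hζ
      (by rw [← hs ζ]; ring)
    exact ⟨_, u, (add_comm _ _).trans u1, u2, by omega, by rw [← u1]; ring⟩

theorem ex_int (p q : ℕ) : ∃ N A B : ℕ, A + p = 2 * N ∧ B + q = 2 * N ∧ p < N ∧ q < N ∧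
    ∀ τ : ℕ, 0 < τ → ∀ a ∈ Uf (exW p q) (exC p q N A B) τ, ∀ w : Fin 8 → ℕ,
      ∃ u ∈ Uf (exW p q) (exC p q N A B) 1,
        τ * Finsupp.weight w u ≤ Finsupp.weight w a := by
  let l1 : Fin 6 → ℕ := ![0, 0, p + 1, p + 1, 0, 1]
  let l2 : Fin 6 → ℕ := ![p + 1, p + 1, 0, 0, p, p]
  let l3 : Fin 6 → ℕ := ![0, q + 1, 0, q + 1, 1, 0]
  let l4 : Fin 6 → ℕ := ![q + 1, 0, q + 1, 0, q, q]
  obtain ⟨N1, p1, r1⟩ := red l1 l3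
  obtain ⟨N2, p2, r2⟩ := red l1 l4
  obtain ⟨N3, p3, r3⟩ := red l2 l3
  obtain ⟨N4, p4, r4⟩ := red l2 l4
  obtain ⟨N, hN⟩ : ∃ N, N = (p + q + 1) * (N1 * N2 * N3 * N4) := ⟨_, rfl⟩
  have hpq : p + q + 1 ≤ N := hN ▸ Nat.le_mul_of_pos_right _ (by positivity)
  have b1 : ∀ i, l1 i ≤ N := fun i => by fin_cases i <;> simp [l1] <;> omega
  have b2 : ∀ i, l2 i ≤ N := fun i => by fin_cases i <;> simp [l2] <;> omega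
  have b3 : ∀ i, l3 i ≤ N := fun i => by fin_cases i <;> simp [l3] <;> omega
  have b4 : ∀ i, l4 i ≤ N := fun i => by fin_cases i <;> simp [l4] <;> omega
  have r1' := r1 N (by omega) ⟨(p + q + 1) * (N2 * N3 * N4), by rw [hN]; ring⟩ b1 b3
  have r2' := r2 N (by omega) ⟨(p + q + 1) * (N1 * N3 * N4), by rw [hN]; ring⟩ b1 b4
  have r3' := r3 N (by omega) ⟨(p + q + 1) * (N1 * N2 * N4), by rw [hN]; ring⟩ b2 b3
  have r4' := r4 N (by omega) ⟨(p + q + 1) * (N1 * N2 * N3), by rw [hN]; ring⟩ b2 b4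
  obtain ⟨A, hA⟩ : ∃ A, A + p = 2 * N := ⟨2 * N - p, by omega⟩
  obtain ⟨B, hB⟩ : ∃ B, B + q = 2 * N := ⟨2 * N - q, by omega⟩
  refine ⟨N, A, B, hA, hB, by omega, by omega, fun τ hτ a ha w => ?_⟩
  obtain ⟨a1, a2, a3, a4, a5, a6, a7⟩ := (mem_ex p q N A B τ a).1 ha
  obtain ⟨z1, hz1⟩ := Nat.exists_eq_add_of_le a5
  obtain ⟨z2, hz2⟩ := Nat.exists_eq_add_of_le a6
  let ξ : Fin 6 → ℕ := ![a 0, a 1, a 2, a 3, z1, z2]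
  have s1 : ∀ ζ : Fin 6 → ℕ, ∑ i, l1 i * ζ i = (p + 1) * (ζ 2 + ζ 3) + ζ 5 := fun ζ => by
    simp [l1, Fin.sum_univ_six]; ring
  have s2 : ∀ ζ : Fin 6 → ℕ, ∑ i, l2 i * ζ i = (p + 1) * (ζ 0 + ζ 1) + p * (ζ 4 + ζ 5) :=
    fun ζ => by simp [l2, Fin.sum_univ_six]; ring
  have s3 : ∀ ζ : Fin 6 → ℕ, ∑ i, l3 i * ζ i = (q + 1) * (ζ 1 + ζ 3) + ζ 4 := fun ζ => by
    simp [l3, Fin.sum_univ_six]; ring
  have s4 : ∀ ζ : Fin 6 → ℕ, ∑ i, l4 i * ζ i = (q + 1) * (ζ 0 + ζ 2) + q * (ζ 4 + ζ 5) :=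
    fun ζ => by simp [l4, Fin.sum_univ_six]; ring
  have x0 : ξ 0 = a 0 := rfl
  have x1 : ξ 1 = a 1 := rfl
  have x2 : ξ 2 = a 2 := rfl
  have x3 : ξ 3 = a 3 := rfl
  have x4 : ξ 4 = z1 := rfl
  have x5 : ξ 5 = z2 := rfl
  have e4 : a 4 + a 5 + a 6 + a 7 = τ * (A + B) + (z1 + z2) := by rw [mul_add]; omega
  obtain ⟨l, x, d, m, hl, c1, c2, c3⟩ := side (v := w 4) (w := w 5) hA (by omega) hz1 l1 l2 ξ
    (by rw [s1, x2, x3, x5]; rw [mul_add] at a1; omega)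
    (by rw [s2, x0, x1, x4, x5]; rw [e4] at a2; nlinarith) 4
    (fun ζ => by rw [s1, s2, Fin.sum_univ_six]; ring)
  obtain ⟨l', y, d', m', hl', f1, f2, f3⟩ := side (v := w 6) (w := w 7) hB (by omega) hz2 l3 l4 ξ
    (by rw [s3, x1, x3, x4]; rw [mul_add] at a3; omega)
    (by rw [s4, x0, x2, x4, x5]; rw [e4] at a4; nlinarith) 5
    (fun ζ => by rw [s3, s4, Fin.sum_univ_six]; ring)
  have g0 : τ ≤ ∑ i, ξ i := by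
    rw [Fin.sum_univ_six, x0, x1, x2, x3, x4, x5]
    rw [mul_add, mul_add] at a7
    omega
  obtain ⟨ζ, g1, g2⟩ : ∃ ζ : Fin 6 → ℕ, 1 ≤ ∑ i, ζ i ∧
      τ * (∑ i, ![w 0, w 1, w 2, w 3, m, m'] i * ζ i + d * (N - ∑ i, l i * ζ i) +
        d' * (N - ∑ i, l' i * ζ i)) ≤ ∑ i, ![w 0, w 1, w 2, w 3, m, m'] i * ξ i + d * x + d' * y := by
    rcases hl with rfl | rfl <;> rcases hl' with rfl | rfl
    · exact r1' _ d d' τ hτ ξ x y g0 c1 f1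
    · exact r2' _ d d' τ hτ ξ x y g0 c1 f1
    · exact r3' _ d d' τ hτ ξ x y g0 c1 f1
    · exact r4' _ d d' τ hτ ξ x y g0 c1 f1
  obtain ⟨u4, u5, k1, k2, k3, k4⟩ := c3 ζ g1
  obtain ⟨u6, u7, n1, n2, n3, n4⟩ := f3 ζ g1
  obtain ⟨u, y0, y1, y2, y3, y4, y5, y6, y7⟩ : ∃ u : Fin 8 →₀ ℕ, u 0 = ζ 0 ∧ u 1 = ζ 1 ∧
      u 2 = ζ 2 ∧ u 3 = ζ 3 ∧ u 4 = u4 ∧ u 5 = u5 ∧ u 6 = u6 ∧ u 7 = u7 :=
    ⟨Finsupp.equivFunOnFinite.symm ![ζ 0, ζ 1, ζ 2, ζ 3, u4, u5, u6, u7],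
      rfl, rfl, rfl, rfl, rfl, rfl, rfl, rfl⟩
  have e5 : u4 + u5 + u6 + u7 = (A + B) + (ζ 4 + ζ 5) := by omega
  rw [s1] at k2
  rw [s2] at k3
  rw [s3] at n2
  rw [s4] at n3
  rw [Fin.sum_univ_six] at g1
  refine ⟨u, (mem_ex p q N A B 1 u).2 ?_, ?_⟩
  · rw [y0, y1, y2, y3, y4, y5, y6, y7, e5]
    simp only [one_mul]
    refine ⟨by omega, ?_, by omega, ?_, by omega, by omega, by omega⟩
    · rw [mul_add p (A + B)]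
      omega
    · rw [mul_add q (A + B)]
      omega
  · have t1 : ∀ ζ : Fin 6 → ℕ, ∑ i, ![w 0, w 1, w 2, w 3, m, m'] i * ζ i =
        w 0 * ζ 0 + w 1 * ζ 1 + w 2 * ζ 2 + w 3 * ζ 3 + m * ζ 4 + m' * ζ 5 := fun ζ => by
      simp [Fin.sum_univ_six]
    rw [t1, t1, x0, x1, x2, x3, x4, x5] at g2
    rw [weight8, weight8, y0, y1, y2, y3, y4, y5, y6, y7]
    generalize N - ∑ i, l i * ζ i = X at g2 k4
    generalize N - ∑ i, l' i * ζ i = Y at g2 n4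
    calc _ = τ * (ζ 0 * w 0 + ζ 1 * w 1 + ζ 2 * w 2 + ζ 3 * w 3 + (u4 * w 4 + u5 * w 5) +
          (u6 * w 6 + u7 * w 7)) := by ring
      _ = τ * (w 0 * ζ 0 + w 1 * ζ 1 + w 2 * ζ 2 + w 3 * ζ 3 + m * ζ 4 + m' * ζ 5 + d * X +
          d' * Y) + (m * (τ * A) + m' * (τ * B)) := by rw [k4, n4]; ring
      _ ≤ w 0 * a 0 + w 1 * a 1 + w 2 * a 2 + w 3 * a 3 + m * z1 + m' * z2 + d * x + d' * y +
          (m * (τ * A) + m' * (τ * B)) := Nat.add_le_add_right g2 _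
      _ = a 0 * w 0 + a 1 * w 1 + a 2 * w 2 + a 3 * w 3 + (a 4 * w 4 + a 5 * w 5) +
          (a 6 * w 6 + a 7 * w 7) := by rw [c2, f2]; ring
      _ = _ := by ring

end Pool.Agent.Lib.MP_30655b_al.TH
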