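import Pool.Agent.Lib.MP_30655b_al.TH.Defs

/-! Regular pairs and the first two Koszul cohomology modules. -/

namespace Pool.Agent.Lib.MP_30655b_al.TH

variable {R : Type*} [CommRing R] {ι : Type} [Fintype ι]

theorem reg_pow {J : Ideal R} {f : R} (h : ∀ w, f * w ∈ J → w ∈ J) (n : ℕ) :
    ∀ w, f ^ n * w ∈ J → w ∈ J := by
  induction n with
  | zero => simp
  | succ n ih => exact fun w hw => h w (ih _ (by rwa [pow_succ, mul_assoc] at hw))

theorem reg_pow_left {J : Ideal R} {f g : R} (h1 : ∀ w, f * w ∈ J → w ∈ J)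
    (h2 : ∀ w c, g * w - f * c ∈ J → ∃ c', w - f * c' ∈ J) (n : ℕ) :
    ∀ w c, g * w - f ^ n * c ∈ J → ∃ c', w - f ^ n * c' ∈ J := by
  induction n with
  | zero => exact fun w c _ => ⟨w, by simp⟩
  | succ n ih =>
    intro w c h
    obtain ⟨d, hd⟩ := ih w (f * c) (by rwa [pow_succ, mul_assoc] at h)
    have h3 : g * d - f * c ∈ J := by
      refine reg_pow h1 n _ ?_
      have : f ^ n * (g * d - f * c) = (g * w - f ^ (n + 1) * c) - g * (w - f ^ n * d) := by ring
      rw [this]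
      exact J.sub_mem h (J.mul_mem_left _ hd)
    obtain ⟨e, he⟩ := h2 d c h3
    refine ⟨e, ?_⟩
    have : w - f ^ (n + 1) * e = (w - f ^ n * d) + f ^ n * (d - f * e) := by ring
    rw [this]
    exact J.add_mem hd (J.mul_mem_left _ he)

theorem reg_pow_right {J : Ideal R} {f g : R}
    (h2 : ∀ w c, g * w - f * c ∈ J → ∃ c', w - f * c' ∈ J) (n : ℕ) :
    ∀ w c, g ^ n * w - f * c ∈ J → ∃ c', w - f * c' ∈ J := by
  induction n with
  | zero => exact fun w c h => ⟨c, by simpa using h⟩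
  | succ n ih =>
    intro w c h
    obtain ⟨d, hd⟩ := ih (g * w) c (by rwa [pow_succ, mul_assoc] at h)
    exact h2 w d hd

theorem koszul_of_regular (J : Ideal R) (y : ι → R) {f g : R}
    (hf : f ∈ (Ideal.span (Set.range y)).radical) (hg : g ∈ (Ideal.span (Set.range y)).radical)
    (h : RingTheory.Sequence.IsWeaklyRegular (R ⧸ J) [f, g]) :
    (∀ u, (∀ i, y i * u ∈ J) → u ∈ J) ∧
      ∀ m : ι → R, (∀ i k, y k * m i - y i * m k ∈ J) → ∃ u, ∀ i, m i - y i * u ∈ J := by
  obtain ⟨h1, h2⟩ := (G.weaklyRegular_pair_iff J f g).1 h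
  obtain ⟨n, hn⟩ := hf
  obtain ⟨k, hk⟩ := hg
  obtain ⟨c, hc⟩ := Ideal.mem_span_range_iff_exists_fun.1 hn
  obtain ⟨d, hd⟩ := Ideal.mem_span_range_iff_exists_fun.1 hk
  refine ⟨fun u hu => reg_pow h1 n u ?_, fun m hm => ?_⟩
  · rw [← hc, Finset.sum_mul]
    exact J.sum_mem fun i _ => by rw [mul_assoc]; exact J.mul_mem_left _ (hu i)
  · have h3 : ∀ j, y j * ∑ i, c i * m i - f ^ n * m j ∈ J := fun j => by
      rw [← hc, Finset.mul_sum, Finset.sum_mul, ← Finset.sum_sub_distrib]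
      refine J.sum_mem fun i _ => ?_
      have : y j * (c i * m i) - c i * y i * m j = c i * (y j * m i - y i * m j) := by ring
      rw [this]
      exact J.mul_mem_left _ (hm i j)
    have h4 : g ^ k * ∑ i, c i * m i - f ^ n * ∑ j, d j * m j ∈ J := by
      rw [← hd, Finset.sum_mul, Finset.mul_sum Finset.univ (fun j => d j * m j),
        ← Finset.sum_sub_distrib]
      refine J.sum_mem fun j _ => ?_
      have : d j * y j * ∑ i, c i * m i - f ^ n * (d j * m j) =
          d j * (y j * ∑ i, c i * m i - f ^ n * m j) := by ring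
      rw [this]
      exact J.mul_mem_left _ (h3 j)
    obtain ⟨u, hu⟩ := reg_pow_right (reg_pow_left h1 h2 n) k _ _ h4
    refine ⟨u, fun j => reg_pow h1 n _ ?_⟩
    have : f ^ n * (m j - y j * u) =
        y j * (∑ i, c i * m i - f ^ n * u) - (y j * ∑ i, c i * m i - f ^ n * m j) := by ring
    rw [this]
    exact J.sub_mem (J.mul_mem_left _ hu) (h3 j)

omit [Fintype ι] in
theorem exists_regular [IsNoetherianRing R] (J : Ideal R) (y : ι → R)
    (h0 : ∀ u, (∀ i, y i * u ∈ J) → u ∈ J) :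
    ∃ f ∈ Ideal.span (Set.range y), ∀ w, f * w ∈ J → w ∈ J := by
  have hs : Subsingleton ((R ⧸ Ideal.span (Set.range y)) →ₗ[R] (R ⧸ J)) := by
    refine subsingleton_of_forall_eq 0 fun φ => ?_
    obtain ⟨u, hu⟩ := Ideal.Quotient.mk_surjective (φ 1)
    have h1 : φ 1 = 0 := by
      rw [← hu, Ideal.Quotient.eq_zero_iff_mem]
      refine h0 u fun i => ?_
      have h2 : y i • (1 : R ⧸ Ideal.span (Set.range y)) = 0 := by
        rw [Algebra.smul_def, mul_one]
        exact Ideal.Quotient.eq_zero_iff_mem.2 (Ideal.subset_span ⟨i, rfl⟩)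
      rw [← Ideal.Quotient.eq_zero_iff_mem, map_mul, hu]
      change y i • φ 1 = 0
      rw [← map_smul, h2, map_zero]
    refine LinearMap.ext fun x => ?_
    obtain ⟨r, rfl⟩ := Ideal.Quotient.mk_surjective x
    have h3 : Ideal.Quotient.mk (Ideal.span (Set.range y)) r = r • 1 := by
      rw [Algebra.smul_def, mul_one]; rfl
    rw [h3, map_smul, h1, smul_zero, LinearMap.zero_apply]
  obtain ⟨f, hf, hr⟩ := IsSMulRegular.subsingleton_linearMap_iff.1 hs
  rw [Ideal.annihilator_quotient] at hf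
  exact ⟨f, hf, (isSMulRegular_quotient_iff_mem_of_smul_mem J f).1 hr⟩

omit [Fintype ι] in
theorem regular_of_koszul [IsNoetherianRing R] (J : Ideal R) (y : ι → R)
    (h0 : ∀ u, (∀ i, y i * u ∈ J) → u ∈ J)
    (h1 : ∀ m : ι → R, (∀ i k, y k * m i - y i * m k ∈ J) → ∃ u, ∀ i, m i - y i * u ∈ J) :
    ∃ f ∈ Ideal.span (Set.range y), ∃ g ∈ Ideal.span (Set.range y),
      RingTheory.Sequence.IsWeaklyRegular (R ⧸ J) [f, g] := by
  obtain ⟨f, hf, hr⟩ := exists_regular J y h0
  have key : ∀ w, w ∈ J ⊔ Ideal.span {f} ↔ ∃ c, w - f * c ∈ J := fun w => by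
    rw [Submodule.mem_sup]
    constructor
    · rintro ⟨a, ha, b, hb, rfl⟩
      obtain ⟨c, rfl⟩ := Ideal.mem_span_singleton'.1 hb
      exact ⟨c, by simpa [mul_comm] using ha⟩
    · rintro ⟨c, hc⟩
      exact ⟨_, hc, f * c, Ideal.mul_mem_right _ _ (Ideal.mem_span_singleton_self f), by ring⟩
  obtain ⟨g, hg, hs⟩ := exists_regular (J ⊔ Ideal.span {f}) y fun u hu => by
    choose m hm using fun i => (key _).1 (hu i)
    obtain ⟨v, hv⟩ := h1 m fun i k => hr _ (by
      have : f * (y k * m i - y i * m k) = y i * (y k * u - f * m k) - y k * (y i * u - f * m i) := by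
        ring
      rw [this]
      exact J.sub_mem (J.mul_mem_left _ (hm k)) (J.mul_mem_left _ (hm i)))
    refine (key u).2 ⟨v, h0 _ fun i => ?_⟩
    have : y i * (u - f * v) = (y i * u - f * m i) + f * (m i - y i * v) := by ring
    rw [this]
    exact J.add_mem (hm i) (J.mul_mem_left _ (hv i))
  exact ⟨f, hf, g, hg, (G.weaklyRegular_pair_iff J f g).2
    ⟨hr, fun w c h => (key w).1 (hs w ((key _).2 ⟨c, h⟩))⟩⟩

end Pool.Agent.Lib.MP_30655b_al.TH
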