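import Pool.Agent.Lib.MP_30655b_al.TH.Defs

/-! Persistence of the failure of the connectedness condition from level `2 s` on. -/

namespace Pool.Agent.Lib.MP_30655b_al.TH

variable {σ : Type} [Fintype σ]

theorem wt_add (w : σ → ℝ) (a b : σ →₀ ℕ) : wt w (a + b) = wt w a + wt w b := by
  simp [wt, mul_add, Finset.sum_add_distrib]

theorem wt_smul (w : σ → ℝ) (n : ℕ) (a : σ →₀ ℕ) : wt w (n • a) = n * wt w a := by
  simp only [wt, Finsupp.smul_apply, smul_eq_mul, Nat.cast_mul, Finset.mul_sum]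
  exact Finset.sum_congr rfl fun i _ => by ring

theorem wt_single (w : σ → ℝ) (i : σ) (n : ℕ) : wt w (Finsupp.single i n) = w i * n := by
  classical
  simp [wt, Finsupp.single_apply]

theorem wt_update [DecidableEq σ] (w : σ → ℝ) (i : σ) (a : σ →₀ ℕ) :
    wt (Function.update w i 0) a = wt w a - w i * a i := by
  unfold wt
  rw [← Finset.add_sum_erase _ _ (Finset.mem_univ i),
    ← Finset.add_sum_erase _ (fun j => w j * (a j : ℝ)) (Finset.mem_univ i),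
    Finset.sum_congr rfl fun j hj => by rw [Function.update_of_ne (Finset.ne_of_mem_erase hj)]]
  simp

theorem exists_bound (V : Finset (σ →₀ ℕ)) (τ : ℕ) : ∃ N : ℕ, ∀ v ∈ V, ∀ i, τ * v i ≤ N :=
  ⟨τ * ∑ v ∈ V, ∑ i, v i, fun v hv i => Nat.mul_le_mul_left _
    ((Finset.single_le_sum (f := fun j => v j) (fun _ _ => Nat.zero_le _) (Finset.mem_univ i)).trans
      (Finset.single_le_sum (f := fun u : σ →₀ ℕ => ∑ j, u j) (fun _ _ => Nat.zero_le _) hv))⟩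

theorem Dv.update [DecidableEq σ] {V : Finset (σ →₀ ℕ)} {τ : ℕ} {a : σ →₀ ℕ} {w : σ → ℝ}
    (h : Dv V τ a w) {i : σ} (hi : ∀ v ∈ V, τ * v i ≤ a i) : Dv V τ a (Function.update w i 0) := by
  refine ⟨fun j => ?_, fun v hv => ?_⟩
  · by_cases hj : j = i
    · simp [hj]
    · rw [Function.update_of_ne hj]; exact h.1 j
  · have h1 := h.2 v hv
    have h2 : (τ : ℝ) * v i ≤ a i := by exact_mod_cast hi v hv
    have h3 := mul_le_mul_of_nonneg_left h2 (h.1 i)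
    rw [wt_update, wt_update]
    linarith

theorem Dv.add_single {V : Finset (σ →₀ ℕ)} {τ : ℕ} {a : σ →₀ ℕ} {w : σ → ℝ} {i : σ}
    (hi : w i = 0) (n : ℕ) : Dv V τ (a + Finsupp.single i n) w ↔ Dv V τ a w := by
  simp [Dv, wt_add, wt_single, hi]

theorem not_mem_Uc {V : Finset (σ →₀ ℕ)} {τ : ℕ} {a : σ →₀ ℕ} :
    a ∉ Uc V τ ↔ ∃ w, Dv V τ a w := by
  simp [Uc]

theorem Uc_stab (V : Finset (σ →₀ ℕ)) (τ : ℕ) : ∃ N, Stab (Uc V τ) N := by
  classical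
  obtain ⟨N, hN⟩ := exists_bound V τ
  refine ⟨N, fun a i hi h w hw => h (Function.update w i 0) ?_⟩
  rw [Dv.add_single (by simp)]
  exact hw.update fun v hv => (hN v hv i).trans hi

theorem vtx_Uc (V : Finset (σ →₀ ℕ)) (τ : ℕ) (a : σ →₀ ℕ) (i : σ) :
    Vtx (Uc V τ) a i ↔ ∃ w, Dv V τ a w ∧ w i = 0 := by
  classical
  obtain ⟨N, hN⟩ := exists_bound V τ
  refine ⟨fun h => ?_, fun ⟨w, hw, hi⟩ n => not_mem_Uc.2 ⟨w, (Dv.add_single hi n).2 hw⟩⟩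
  obtain ⟨w, hw⟩ := not_mem_Uc.1 (h N)
  have h1 := hw.update (i := i) fun v hv => (hN v hv i).trans (by simp)
  exact ⟨_, (Dv.add_single (by simp) N).1 h1, by simp⟩

theorem edge_Uc (V : Finset (σ →₀ ℕ)) (τ : ℕ) (a : σ →₀ ℕ) (i k : σ) :
    Edge (Uc V τ) a i k ↔ ∃ w, Dv V τ a w ∧ w i = 0 ∧ w k = 0 := by
  classical
  obtain ⟨N, hN⟩ := exists_bound V τ
  refine ⟨fun h => ?_, fun ⟨w, hw, hi, hk⟩ n =>
    not_mem_Uc.2 ⟨w, (Dv.add_single hk n).2 ((Dv.add_single hi n).2 hw)⟩⟩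
  obtain ⟨w, hw⟩ := not_mem_Uc.1 (h N)
  have h1 := (hw.update (i := k) fun v hv => (hN v hv k).trans (by simp)).update (i := i)
    fun v hv => (hN v hv i).trans (by simp; omega)
  have hk : Function.update (Function.update w k 0) i 0 k = 0 := by
    by_cases e : k = i
    · simp [e]
    · simp [Function.update_of_ne e]
  exact ⟨_, (Dv.add_single (by simp) N).1 ((Dv.add_single hk N).1 h1), by simp, hk⟩

/-- `v` minimises the weight `w` on `V`. -/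
def IsMn (V : Finset (σ →₀ ℕ)) (w : σ → ℝ) (v : σ →₀ ℕ) : Prop :=
  v ∈ V ∧ ∀ u ∈ V, wt w v ≤ wt w u

theorem exists_isMn {V : Finset (σ →₀ ℕ)} (hV : V.Nonempty) (w : σ → ℝ) : ∃ v, IsMn V w v :=
  V.exists_min_image (wt w) hV

theorem dv_iff {V : Finset (σ →₀ ℕ)} {w : σ → ℝ} {z : σ →₀ ℕ} (hz : IsMn V w z) (τ : ℕ)
    (a : σ →₀ ℕ) : Dv V τ a w ↔ (∀ i, 0 ≤ w i) ∧ wt w a < τ * wt w z :=
  and_congr_right fun _ => ⟨fun h => h z hz.1, fun h v hv =>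
    h.trans_le (mul_le_mul_of_nonneg_left (hz.2 v hv) (Nat.cast_nonneg τ))⟩

theorem dv_mono {V : Finset (σ →₀ ℕ)} (hV : V.Nonempty) {s : ℕ} {a v u : σ →₀ ℕ} (hv : v ∈ V)
    (hu : u ∈ V) {k x y k' x' y' τ τ' : ℕ} (hτ : τ = k * s + x + y) (hτ' : τ' = k' * s + x' + y')
    (hk : k ≤ k') (hx : x' ≤ x) (hy : y' ≤ y) {w : σ → ℝ}
    (h : Dv V τ (k • a + x • v + y • u) w) : Dv V τ' (k' • a + x' • v + y' • u) w := by
  obtain ⟨z, hz⟩ := exists_isMn hV w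
  rw [dv_iff hz] at h ⊢
  refine ⟨h.1, ?_⟩
  have h1 := h.2
  subst hτ hτ'
  obtain ⟨d, rfl⟩ := Nat.exists_eq_add_of_le hk
  obtain ⟨e, rfl⟩ := Nat.exists_eq_add_of_le hx
  obtain ⟨f, rfl⟩ := Nat.exists_eq_add_of_le hy
  simp only [wt_add, wt_smul] at h1 ⊢
  push_cast at h1 ⊢
  have p1 := sub_nonneg.2 (hz.2 v hv)
  have p2 := sub_nonneg.2 (hz.2 u hu)
  have q1 := mul_nonneg (Nat.cast_nonneg (α := ℝ) x') p1
  have q2 := mul_nonneg (Nat.cast_nonneg (α := ℝ) e) p1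
  have q3 := mul_nonneg (Nat.cast_nonneg (α := ℝ) y') p2
  have q4 := mul_nonneg (Nat.cast_nonneg (α := ℝ) f) p2
  have q5 : wt w a - s * wt w z ≤ 0 := by
    by_contra hc
    have := mul_nonneg (Nat.cast_nonneg (α := ℝ) k) (not_le.1 hc).le
    nlinarith
  have q6 := mul_nonneg (Nat.cast_nonneg (α := ℝ) d) (neg_nonneg.2 q5)
  nlinarith

theorem dv_min {V : Finset (σ →₀ ℕ)} {s : ℕ} {a v u : σ →₀ ℕ} {w : σ → ℝ} (hv : IsMn V w v)
    (hu : IsMn V w u) {x y τ : ℕ} (hτ : τ = 1 * s + x + y) (h : Dv V s a w) :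
    Dv V τ (1 • a + x • v + y • u) w := by
  rw [dv_iff hv] at h ⊢
  refine ⟨h.1, ?_⟩
  have e : wt w u = wt w v := le_antisymm (hu.2 v hv.1) (hv.2 u hu.1)
  subst hτ
  simp only [wt_add, wt_smul, e]
  push_cast
  linarith [h.2]

theorem dv_base {V : Finset (σ →₀ ℕ)} (hV : V.Nonempty) {s : ℕ} {a v u : σ →₀ ℕ} (hv : v ∈ V)
    (hu : u ∈ V) {k x y τ : ℕ} (hτ : τ = k * s + x + y) {w : σ → ℝ}
    (h : Dv V τ (k • a + x • v + y • u) w) : Dv V s a w := by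
  obtain ⟨z, hz⟩ := exists_isMn hV w
  have h1 := dv_mono hV hv hu hτ (k' := k) (x' := 0) (y' := 0) rfl le_rfl (Nat.zero_le _)
    (Nat.zero_le _) h
  rw [dv_iff hz] at h1 ⊢
  refine ⟨h1.1, ?_⟩
  have h2 := h1.2
  simp only [wt_add, wt_smul] at h2
  push_cast at h2
  by_contra hc
  have := mul_nonneg (Nat.cast_nonneg (α := ℝ) k) (sub_nonneg.2 (not_lt.1 hc))
  nlinarith

theorem wt_comb (w w' : σ → ℝ) (l : ℝ) (a : σ →₀ ℕ) :
    wt (fun j => (1 - l) * w j + l * w' j) a = (1 - l) * wt w a + l * wt w' a := by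
  simp only [wt, Finset.mul_sum, ← Finset.sum_add_distrib]
  exact Finset.sum_congr rfl fun i _ => by ring

theorem Dv.comb {V : Finset (σ →₀ ℕ)} {τ : ℕ} {a : σ →₀ ℕ} {w w' : σ → ℝ} (h : Dv V τ a w)
    (h' : Dv V τ a w') {l : ℝ} (h0 : 0 ≤ l) (h1 : l ≤ 1) :
    Dv V τ a fun j => (1 - l) * w j + l * w' j := by
  refine ⟨fun j => add_nonneg (mul_nonneg (sub_nonneg.2 h1) (h.1 j)) (mul_nonneg h0 (h'.1 j)),
    fun v hv => ?_⟩
  have p1 := sub_pos.2 (h.2 v hv)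
  have p2 := sub_pos.2 (h'.2 v hv)
  rw [wt_comb, wt_comb]
  rcases h0.eq_or_lt with rfl | h0
  · linarith
  · nlinarith [mul_nonneg (sub_nonneg.2 h1) p1.le, mul_pos h0 p2]

theorem isClosed_min (V : Finset (σ →₀ ℕ)) (w w' : σ → ℝ) (P : (σ →₀ ℕ) → Prop) :
    IsClosed {l : ℝ | ∃ v, IsMn V (fun j => (1 - l) * w j + l * w' j) v ∧ P v} := by
  classical
  have : {l : ℝ | ∃ v, IsMn V (fun j => (1 - l) * w j + l * w' j) v ∧ P v} =
      ⋃ v ∈ V.filter P, ⋂ u ∈ V,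
        {l : ℝ | (1 - l) * wt w v + l * wt w' v ≤ (1 - l) * wt w u + l * wt w' u} := by
    ext l
    simp only [IsMn, wt_comb, Set.mem_ofPred_eq, Set.mem_iUnion, Set.mem_iInter, Finset.mem_filter]
    exact ⟨fun ⟨v, h1, h2⟩ => ⟨v, ⟨h1.1, h2⟩, h1.2⟩, fun ⟨v, h1, h2⟩ => ⟨v, ⟨h1.1, h2⟩, h1.2⟩⟩
  rw [this]
  exact isClosed_biUnion_finset fun v _ => isClosed_biInter fun u _ =>
    isClosed_le (by fun_prop) (by fun_prop)

theorem good_persist (V : Finset (σ →₀ ℕ)) (hV : V.Nonempty) {s t : ℕ} (hs : 1 ≤ s)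
    (hst : 2 * s ≤ t) (h : Good (Uc V t)) : Good (Uc V s) := by
  obtain ⟨e, rfl⟩ := Nat.exists_eq_add_of_le hst
  intro a ha
  obtain ⟨w0, hw0⟩ := not_mem_Uc.1 ha
  obtain ⟨v0, hv0⟩ := exists_isMn hV w0
  have hb0 := h _ (not_mem_Uc.2 ⟨w0, dv_min hv0 hv0 (x := s + e) (y := 0) (by omega) hw0⟩)
  have sub0 : ∀ k, Vtx (Uc V (2 * s + e)) (1 • a + (s + e) • v0 + 0 • v0) k → Vtx (Uc V s) a k :=
    fun k hk => by
      obtain ⟨w, hw, hk⟩ := (vtx_Uc _ _ _ _).1 hk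
      exact (vtx_Uc _ _ _ _).2 ⟨w, dv_base hV hv0.1 hv0.1 (by omega) hw, hk⟩
  refine ⟨hb0.1.imp sub0, fun i => (hb0.2.1 i).imp fun k hk => ⟨hk.1, sub0 k hk.2⟩,
    fun S hS i hi k hk h1 h2 => ?_⟩
  have excl : ∀ v ∈ V, ∀ u ∈ V, ∀ n x y : ℕ, 2 * s + e = n * s + x + y → ∀ i, i ∈ S → ∀ k, k ∉ S →
      Vtx (Uc V (2 * s + e)) (n • a + x • v + y • u) i →
      Vtx (Uc V (2 * s + e)) (n • a + x • v + y • u) k → False := by
    intro v hv u hu n x y hn i hi k hk h1 h2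
    refine (h _ (by simpa using h1 0)).2.2 S (fun i hi k hk hE => hS i hi k hk ?_) i hi k hk h1 h2
    obtain ⟨w, hw, h3⟩ := (edge_Uc _ _ _ _ _).1 hE
    exact (edge_Uc _ _ _ _ _).2 ⟨w, dv_base hV hv hu hn hw, h3⟩
  have swap : ∀ w v u, Dv V s a w → IsMn V w v → IsMn V w u → ∀ y x : ℕ, x + y = s + e →
      (∃ i ∈ S, Vtx (Uc V (2 * s + e)) (1 • a + (s + e) • v + 0 • u) i) →
      ∃ i ∈ S, Vtx (Uc V (2 * s + e)) (1 • a + x • v + y • u) i := by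
    intro w v u hw hv hu y
    induction y with
    | zero => intro x hx h0; obtain rfl : x = s + e := hx; exact h0
    | succ y ih =>
      intro x hx h0
      obtain ⟨i, hi, h3⟩ := ih (x + 1) (by omega) h0
      obtain ⟨k, h4⟩ := (h _ (not_mem_Uc.2
        ⟨w, dv_min hv hu (x := x) (y := y + 1) (by omega) hw⟩)).1
      by_cases hk : k ∈ S
      · exact ⟨k, hk, h4⟩
      · obtain ⟨w3, p3, q3⟩ := (vtx_Uc _ _ _ _).1 h3
        obtain ⟨w4, p4, q4⟩ := (vtx_Uc _ _ _ _).1 h4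
        have hn : 2 * s + e = 2 * s + min x e + (e - min x e) := by omega
        exact (excl v hv.1 u hu.1 2 (min x e) (e - min x e) hn i hi k hk
          ((vtx_Uc _ _ _ _).2 ⟨w3, dv_mono hV hv.1 hu.1 (by omega) hn (by omega) (by omega)
            (by omega) p3, q3⟩)
          ((vtx_Uc _ _ _ _).2 ⟨w4, dv_mono hV hv.1 hu.1 (by omega) hn (by omega) (by omega)
            (by omega) p4, q4⟩)).elim
  obtain ⟨w1, p1, q1⟩ := (vtx_Uc _ _ _ _).1 h1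
  obtain ⟨w2, p2, q2⟩ := (vtx_Uc _ _ _ _).1 h2
  let P : (σ →₀ ℕ) → Prop := fun v =>
    ∃ i ∈ S, Vtx (Uc V (2 * s + e)) (1 • a + (s + e) • v + 0 • v) i
  obtain ⟨l, hl, ⟨v, hv, hP⟩, u, hu, hQ⟩ := isPreconnected_closed_iff.1
    (isPreconnected_Icc (a := (0 : ℝ)) (b := 1)) _ _ (isClosed_min V w1 w2 P)
    (isClosed_min V w1 w2 fun v => ¬ P v)
    (fun l _ => by
      obtain ⟨v, hv⟩ := exists_isMn hV fun j => (1 - l) * w1 j + l * w2 j
      by_cases hP : P v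
      · exact Or.inl ⟨v, hv, hP⟩
      · exact Or.inr ⟨v, hv, hP⟩)
    (by
      obtain ⟨v, hv⟩ := exists_isMn hV w1
      exact ⟨0, by simp, v, by simpa using hv, i, hi,
        (vtx_Uc _ _ _ _).2 ⟨w1, dv_min hv hv (by omega) p1, q1⟩⟩)
    (by
      obtain ⟨v, hv⟩ := exists_isMn hV w2
      exact ⟨1, by simp, v, by simpa using hv, fun ⟨j, hj, h3⟩ =>
        excl v hv.1 v hv.1 1 (s + e) 0 (by omega) j hj k hk h3
          ((vtx_Uc _ _ _ _).2 ⟨w2, dv_min hv hv (by omega) p2, q2⟩)⟩)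
  refine hQ ?_
  have := swap _ v u (p1.comb p2 hl.1 hl.2) hv hu (s + e) 0 (by omega) (by simpa [P] using hP)
  simpa [P] using this

end Pool.Agent.Lib.MP_30655b_al.TH
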