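import Pool.Agent.Lib.MP_30655b_al.TH.Tak
import Pool.Agent.Lib.MP_30655b_al.TH.Clo
import Pool.Agent.Lib.MP_30655b_al.TH.Per
import Pool.Agent.Lib.MP_30655b_al.TH.Int
import Pool.Agent.Lib.MP_30655b_al.TH.Fam

/-! Depth at most one of the integral closures of the powers of a monomial ideal. -/

open MvPolynomial RingTheory.Sequence

namespace Pool.Agent.Lib.MP_30655b_al.TH

open G

variable {K : Type*} [Field K] {r : ℕ}

theorem smul_lt_top {U : Set (Fin r →₀ ℕ)} (hU : UpC U) (h0 : (0 : Fin r →₀ ℕ) ∉ U) :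
    varIdeal K r • (⊤ : Submodule (MvPolynomial (Fin r) K) (MvPolynomial (Fin r) K ⧸ L K U)) <
      ⊤ := by
  refine lt_top_iff_ne_top.2 fun h => ?_
  have h1 := congrArg (Submodule.comap (L K U).mkQ) h
  rw [Submodule.comap_smul_top_of_surjective _ _ (Submodule.mkQ_surjective _),
    Submodule.comap_top, Submodule.ker_mkQ, Ideal.smul_eq_mul, Ideal.mul_top] at h1
  have h2 : varIdeal K r ≤ RingHom.ker (constantCoeff : MvPolynomial (Fin r) K →+* K) := by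
    rw [varIdeal, Ideal.span_le]
    rintro _ ⟨i, rfl⟩
    simp
  have h3 : L K U ≤ RingHom.ker (constantCoeff : MvPolynomial (Fin r) K →+* K) := fun f hf => by
    rw [RingHom.mem_ker, constantCoeff_eq]
    by_contra hne
    exact h0 ((mem_L hU).1 hf 0 hne)
  exact RingHom.ker_ne_top _ (top_le_iff.1 (h1.ge.trans (sup_le h2 h3)))

theorem depth_iff_good {U : Set (Fin r →₀ ℕ)} (hU : UpC U) (hN : ∃ N, Stab U N)
    (h0 : (0 : Fin r →₀ ℕ) ∉ U) {d : ℕ}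
    (hd : IsDepth (varIdeal K r) (MvPolynomial (Fin r) K ⧸ L K U) d) : 2 ≤ d ↔ Good U := by
  obtain ⟨N, hN⟩ := hN
  obtain ⟨⟨rs, hrs⟩, h⟩ := hd
  obtain rfl := h rs hrs
  constructor
  · intro h2
    obtain _ | ⟨f, _ | ⟨g, rs⟩⟩ := rs
    · simp at h2
    · simp at h2
    exact good_of_dep2 (K := K) hU hN ⟨f, hrs.1 f (by simp), g, hrs.1 g (by simp),
      ((isWeaklyRegular_append_iff _ [f, g] rs).1 hrs.2.1.1).1⟩
  · intro hg
    obtain ⟨f, hf, g, hg, hr⟩ := dep2_of_good (K := K) hU hN hg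
    have hm : ∀ x ∈ [f, g], x ∈ varIdeal K r := by simpa using ⟨hf, hg⟩
    exact hrs.le (smul_lt_top hU h0) hm (isRegular_of_weak (smul_lt_top hU h0) hm hr)

theorem exists_isDepth {U : Set (Fin r →₀ ℕ)} (hU : UpC U) (h0 : (0 : Fin r →₀ ℕ) ∉ U) :
    ∃ d, IsDepth (varIdeal K r) (MvPolynomial (Fin r) K ⧸ L K U) d :=
  (exists_isMaxReg (smul_lt_top (K := K) hU h0)).elim fun _ h =>
    ⟨_, h.isDepth (smul_lt_top hU h0)⟩

theorem zero_not_mem_Uc {V : Finset (Fin r →₀ ℕ)} (hV : (0 : Fin r →₀ ℕ) ∉ V) {τ : ℕ}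
    (hτ : 1 ≤ τ) : (0 : Fin r →₀ ℕ) ∉ Uc V τ := fun h => by
  obtain ⟨v, hv, h1⟩ := (mem_Uc_iff V τ 0).1 h fun _ => 1
  rw [map_zero, Nat.le_zero, Nat.mul_eq_zero] at h1
  refine hV ?_
  have : v = 0 := Finsupp.ext fun i => Nat.le_zero.1
    ((Finsupp.le_weight (fun _ => 1) (s := i) one_ne_zero v).trans (h1.resolve_left (by omega)).le)
  rwa [this] at hv

theorem persist {S : Set (Fin r →₀ ℕ)} (h1 : L K S ≠ ⊥) (h2 : L K S ≠ ⊤) {s t d e : ℕ}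
    (hs : 1 ≤ s) (hst : 2 * s ≤ t)
    (hd : IsDepth (varIdeal K r) (MvPolynomial (Fin r) K ⧸ intClosure (L K S ^ s)) d)
    (he : IsDepth (varIdeal K r) (MvPolynomial (Fin r) K ⧸ intClosure (L K S ^ t)) e)
    (h : d ≤ 1) : e ≤ 1 := by
  obtain ⟨V, hV1, hV2⟩ := exists_finset_gen S
  rw [L_eq_of_gen hV1 hV2] at h1 h2 hd he
  have hne : V.Nonempty := Finset.nonempty_iff_ne_empty.2 fun h => h1 (by simp [h, L])
  have h0 : (0 : Fin r →₀ ℕ) ∉ V := fun h => h2 ((Ideal.eq_top_iff_one _).2 (monomial_mem_L h))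
  rw [intClosure_pow V hne] at hd he
  by_contra hc
  have := (depth_iff_good (Uc_up V s) (Uc_stab V s) (zero_not_mem_Uc h0 hs) hd).2
    (good_persist V hne hs hst ((depth_iff_good (Uc_up V t) (Uc_stab V t)
      (zero_not_mem_Uc h0 (by omega)) he).1 (by omega)))
  omega

theorem closure_Uf {σ ι : Type} [Fintype σ] (w : ι → σ → ℕ) (c : ι → ℕ) {τ : ℕ}
    (hne : (Uf w c 1).Nonempty)
    (h : ∀ a ∈ Uf w c τ, ∀ z : σ → ℕ, ∃ u ∈ Uf w c 1,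
      τ * Finsupp.weight z u ≤ Finsupp.weight z a) :
    intClosure (L K (Uf w c 1) ^ τ) = L K (Uf w c τ) := by
  obtain ⟨V, hV1, hV2⟩ := exists_finset_gen (Uf w c 1)
  obtain ⟨a0, ha0⟩ := hne
  obtain ⟨v0, hv0, -⟩ := hV2 a0 ha0
  rw [L_eq_of_gen hV1 hV2, intClosure_pow V ⟨v0, hv0⟩]
  congr 1
  ext a
  rw [mem_Uc_iff]
  refine ⟨fun h1 j => ?_, fun h1 z => ?_⟩
  · obtain ⟨v, hv, h2⟩ := h1 (w j)
    exact (Nat.mul_le_mul_left _ (by simpa using hV1 hv j)).trans h2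
  · obtain ⟨u, hu, h2⟩ := h a h1 z
    obtain ⟨v, hv, h3⟩ := hV2 u hu
    obtain ⟨b, rfl⟩ := le_iff_exists_add.1 h3
    rw [map_add] at h2
    exact ⟨v, hv, (Nat.mul_le_mul_left _ (Nat.le_add_right _ _)).trans h2⟩

theorem counter (K : Type*) [Field K] {p q t : ℕ} (ht : 1 ≤ t) (hqp : q + 2 ≤ p) (htp : t ≤ p)
    (hj : ∀ j : ℕ, t + 2 ≤ (p + 1) * j → t < (q + 1) * j) :
    ∃ S : Set (Fin 8 →₀ ℕ), L K S ≠ ⊥ ∧ L K S ≠ ⊤ ∧ ∃ d e : ℕ,
      IsDepth (varIdeal K 8) (MvPolynomial (Fin 8) K ⧸ intClosure (L K S ^ (q + 1))) d ∧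
      IsDepth (varIdeal K 8) (MvPolynomial (Fin 8) K ⧸ intClosure (L K S ^ t)) e ∧
      d ≤ 1 ∧ 2 ≤ e := by
  obtain ⟨N, A, B, hA, hB, hp, -, h⟩ := ex_int p q
  have h0 : ∀ τ, 1 ≤ τ → (0 : Fin 8 →₀ ℕ) ∉ Uf (exW p q) (exC p q N A B) τ := fun τ hτ h => by
    have := ((mem_ex _ _ _ _ _ _ _).1 h).2.2.2.2.2.2
    simp at this
    omega
  obtain ⟨a, ha⟩ : (Uf (exW p q) (exC p q N A B) 1).Nonempty :=
    ⟨Finsupp.equivFunOnFinite.symm fun _ => N + A + B + 1, by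
      rw [mem_ex]
      simp only [Finsupp.equivFunOnFinite_symm_apply_apply]
      refine ⟨?_, ?_, ?_, ?_, ?_, ?_, ?_⟩ <;> nlinarith [Nat.zero_le (p * N), Nat.zero_le (q * N)]⟩
  refine ⟨Uf (exW p q) (exC p q N A B) 1, fun e => ?_, fun e => ?_, ?_⟩
  · have := monomial_mem_L (K := K) ha
    rw [e, Ideal.mem_bot, monomial_eq_zero] at this
    exact one_ne_zero this
  · exact h0 1 le_rfl ((mem_L (K := K) (f := 1) (Uf_up _ _ _)).1 (e ▸ trivial) 0 (by simp))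
  rw [closure_Uf _ _ ⟨a, ha⟩ (h _ (by omega)), closure_Uf _ _ ⟨a, ha⟩ (h _ ht)]
  obtain ⟨d, hd⟩ := exists_isDepth (K := K) (Uf_up _ _ _) (h0 (q + 1) (by omega))
  obtain ⟨e, he⟩ := exists_isDepth (K := K) (Uf_up _ _ _) (h0 t ht)
  refine ⟨d, e, hd, he, ?_, (depth_iff_good (Uf_up _ _ _) (Uf_stab _ _ _) (h0 t ht) he).2
    (ex_good hA hB (by omega) htp hj)⟩
  by_contra hc
  exact ex_not_good hA hB hp hqp
    ((depth_iff_good (Uf_up _ _ _) (Uf_stab _ _ _) (h0 _ (by omega)) hd).1 (by omega))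

end Pool.Agent.Lib.MP_30655b_al.TH
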