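import Pool.Agent.Lib.MP_30655b_al.TH.Kos

/-! Depth at least two for a monomial ideal, in terms of degree complexes. -/

open MvPolynomial

namespace Pool.Agent.Lib.MP_30655b_al.TH

open G

variable {σ : Type} [Fintype σ] {K : Type*} [Field K]

omit [Fintype σ] in
theorem tak_down {U : Set (σ →₀ ℕ)} {N : ℕ} (hN : Stab U N) {a : σ →₀ ℕ} {i : σ} (ha : N ≤ a i)
    (m : ℕ) (h : a + Finsupp.single i m ∈ U) : a ∈ U := by
  induction m with
  | zero => simpa using h
  | succ m ih =>
    refine ih (hN _ i ?_ ?_)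
    · simp only [Finsupp.add_apply, Finsupp.single_eq_same]
      omega
    · rwa [add_assoc, ← Finsupp.single_add]

omit [Fintype σ] in
theorem tak_vtx {U : Set (σ →₀ ℕ)} (hU : UpC U) {N n : ℕ} (hN : Stab U N) (hn : N ≤ n)
    {a : σ →₀ ℕ} {i : σ} (h : a + Finsupp.single i n ∉ U) : Vtx U a i := by
  intro m hm
  refine h (tak_down hN (i := i) ?_ m ?_)
  · simp only [Finsupp.add_apply, Finsupp.single_eq_same]
    omega
  · rw [add_right_comm]
    exact hU _ _ hm

omit [Fintype σ] in
theorem tak_edge {U : Set (σ →₀ ℕ)} (hU : UpC U) {N n : ℕ} (hN : Stab U N) (hn : N ≤ n)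
    {a : σ →₀ ℕ} {i k : σ} (h : a + Finsupp.single i n + Finsupp.single k n ∉ U) :
    Edge U a i k := by
  intro m hm
  refine h (tak_down hN (i := i) ?_ m (tak_down hN (i := k) ?_ m ?_))
  · simp only [Finsupp.add_apply, Finsupp.single_eq_same]
    omega
  · simp only [Finsupp.add_apply, Finsupp.single_eq_same]
    omega
  · have h1 := hU _ (Finsupp.single i n + Finsupp.single k n) hm
    have h2 : a + Finsupp.single i m + Finsupp.single k m +
        (Finsupp.single i n + Finsupp.single k n) =
        a + Finsupp.single i n + Finsupp.single k n + Finsupp.single i m + Finsupp.single k m := by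
      abel
    rwa [h2] at h1

omit [Fintype σ] in
theorem tak_coeff (a : σ →₀ ℕ) (i : σ) (n : ℕ) (u : MvPolynomial σ K) :
    coeff (a + Finsupp.single i n) (monomial (Finsupp.single i n) (1 : K) * u) = coeff a u := by
  rw [add_comm, coeff_monomial_mul, one_mul]

omit [Fintype σ] in
theorem tak_coeff0 {b : σ →₀ ℕ} {i : σ} {n : ℕ} (h : b i < n) (u : MvPolynomial σ K) :
    coeff b (monomial (Finsupp.single i n) (1 : K) * u) = 0 := by
  classical
  rw [coeff_monomial_mul', if_neg]
  rw [Finsupp.single_le_iff]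
  omega

omit [Fintype σ] in
theorem tak_mul (a : σ →₀ ℕ) (i : σ) (n : ℕ) :
    monomial (Finsupp.single i n) (1 : K) * monomial a (1 : K) =
      monomial (a + Finsupp.single i n) (1 : K) := by
  rw [monomial_mul, one_mul, add_comm]

theorem tak_koszul {U : Set (σ →₀ ℕ)} (h : Dep2 K U) (n : ℕ) :
    (∀ u : MvPolynomial σ K, (∀ i, monomial (Finsupp.single i n) (1 : K) * u ∈ L K U) →
      u ∈ L K U) ∧
    ∀ m : σ → MvPolynomial σ K, (∀ i k, monomial (Finsupp.single k n) (1 : K) * m i -
      monomial (Finsupp.single i n) (1 : K) * m k ∈ L K U) →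
      ∃ u, ∀ i, m i - monomial (Finsupp.single i n) (1 : K) * u ∈ L K U := by
  obtain ⟨f, hf, g, hg, hr⟩ := h
  have hle : Ideal.span (Set.range (X : σ → MvPolynomial σ K)) ≤
      (Ideal.span (Set.range fun i : σ => monomial (Finsupp.single i n) (1 : K))).radical := by
    rw [Ideal.span_le]
    rintro _ ⟨i, rfl⟩
    exact ⟨n, Ideal.subset_span ⟨i, (X_pow_eq_monomial).symm⟩⟩
  exact koszul_of_regular (L K U) (fun i : σ => monomial (Finsupp.single i n) (1 : K))
    (hle hf) (hle hg) hr

theorem dep2_of_good {U : Set (σ →₀ ℕ)} (hU : UpC U) {N : ℕ} (hN : Stab U N) (h : Good U) :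
    Dep2 K U := by
  classical
  obtain ⟨n, hn⟩ : ∃ n, n = N + 1 := ⟨_, rfl⟩
  have hNn : N ≤ n := by omega
  have hle : Ideal.span (Set.range fun i : σ => monomial (Finsupp.single i n) (1 : K)) ≤
      Ideal.span (Set.range (X : σ → MvPolynomial σ K)) := by
    rw [Ideal.span_le]
    rintro _ ⟨i, rfl⟩
    have h1 : monomial (Finsupp.single i n) (1 : K) = X i ^ N * X i := by
      rw [← pow_succ, X_pow_eq_monomial, hn]
    show monomial (Finsupp.single i n) (1 : K) ∈ Ideal.span _
    rw [h1]
    exact Ideal.mul_mem_left _ _ (Ideal.subset_span ⟨i, rfl⟩)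
  suffices H : ∃ f ∈ Ideal.span (Set.range fun i : σ => monomial (Finsupp.single i n) (1 : K)),
      ∃ g ∈ Ideal.span (Set.range fun i : σ => monomial (Finsupp.single i n) (1 : K)),
        RingTheory.Sequence.IsWeaklyRegular (MvPolynomial σ K ⧸ L K U) [f, g] by
    obtain ⟨f, hf, g, hg, hr⟩ := H
    exact ⟨f, hle hf, g, hle hg, hr⟩
  refine regular_of_koszul (L K U) (fun i : σ => monomial (Finsupp.single i n) (1 : K)) ?_ ?_
  · intro u hu
    rw [mem_L hU]
    intro α hα
    by_contra hcon
    obtain ⟨k, hk⟩ := (h α hcon).1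
    refine hk n ((mem_L hU).1 (hu k) _ ?_)
    rwa [tak_coeff]
  · intro m hm
    have hA : ∀ a i k, a + Finsupp.single i n + Finsupp.single k n ∉ U →
        coeff (a + Finsupp.single i n) (m i) = coeff (a + Finsupp.single k n) (m k) := by
      intro a i k ha
      have h1 := coeff_eq_of_sub_mem hU (hm i k) ha
      rwa [tak_coeff, add_right_comm, tak_coeff] at h1
    have hB : ∀ a i k, a + Finsupp.single i n ∉ U → a + Finsupp.single k n ∉ U →
        coeff (a + Finsupp.single i n) (m i) = coeff (a + Finsupp.single k n) (m k) := by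
      intro a i k hi hk
      have ha : a ∉ U := fun h1 => hi (hU _ _ h1)
      by_contra hne
      refine (h a ha).2.2
        {j | coeff (a + Finsupp.single i n) (m i) = coeff (a + Finsupp.single j n) (m j)}
        ?_ i rfl k hne (tak_vtx hU hN hNn hi) (tak_vtx hU hN hNn hk)
      intro j hj l hl he
      exact hl (Eq.trans hj (hA a j l (he n)))
    have hUi : ∀ i, UpC {a | a + Finsupp.single i n ∈ U} := by
      intro i α β hα
      show α + β + Finsupp.single i n ∈ U
      rw [add_right_comm]
      exact hU _ _ hα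
    obtain ⟨v, hv⟩ := glue (K := K) (fun i => {a | a + Finsupp.single i n ∈ U}) hUi
      (fun i => divMonomial (m i) (Finsupp.single i n)) (by
        intro j k β hj hk
        rw [coeff_divMonomial, coeff_divMonomial, add_comm _ β, add_comm _ β]
        exact hB β j k hj hk)
    refine ⟨v, fun i => ?_⟩
    rw [mem_L hU]
    intro b hb
    by_contra hcon
    apply hb
    rw [coeff_sub, sub_eq_zero]
    by_cases hbi : b i < n
    · obtain ⟨k, hki, hk⟩ := (h b hcon).2.1 i
      have h1 := coeff_eq_of_sub_mem hU (hm i k) (hk n)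
      rw [tak_coeff, tak_coeff0] at h1
      · rw [h1, tak_coeff0 hbi]
      · rwa [Finsupp.add_apply, Finsupp.single_eq_of_ne hki.symm, add_zero]
    · obtain ⟨a, rfl⟩ : ∃ a, b = a + Finsupp.single i n :=
        ⟨b - Finsupp.single i n,
          (tsub_add_cancel_of_le (Finsupp.single_le_iff.2 (not_lt.1 hbi))).symm⟩
      have h1 := coeff_eq_of_sub_mem (hUi i) (hv i) (β := a) hcon
      rw [tak_coeff, h1, coeff_divMonomial, add_comm]

theorem good_of_dep2 {U : Set (σ →₀ ℕ)} (hU : UpC U) {N : ℕ} (hN : Stab U N) (h : Dep2 K U) :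
    Good U := by
  classical
  intro a ha
  refine ⟨?_, fun i => ?_, fun S hS i hi k hk hvi hvk => ?_⟩
  · by_contra hcon
    have h1 := (tak_koszul h N).1 (monomial a 1) fun k => by
      rw [tak_mul]
      refine monomial_mem_L ?_
      by_contra hk
      exact hcon ⟨k, tak_vtx hU hN le_rfl hk⟩
    exact ha ((mem_L hU).1 h1 a (by simp))
  · by_contra hcon
    obtain ⟨n, hNn, hin⟩ : ∃ n, N ≤ n ∧ a i < n := ⟨N + a i + 1, by omega, by omega⟩
    have h0 : ∀ k, k ≠ i →
        monomial (Finsupp.single k n) (1 : K) * monomial a (1 : K) ∈ L K U := by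
      intro k hk
      rw [tak_mul]
      refine monomial_mem_L ?_
      by_contra hk'
      exact hcon ⟨k, hk, tak_vtx hU hN hNn hk'⟩
    obtain ⟨u, hu⟩ := (tak_koszul h n).2 (fun j => if j = i then monomial a 1 else 0) (by
      intro j k
      by_cases hj : j = i <;> by_cases hk : k = i
      · subst hj
        subst hk
        rw [sub_self]
        exact zero_mem _
      · rw [if_pos hj, if_neg hk, mul_zero, sub_zero]
        exact h0 k hk
      · rw [if_neg hj, if_pos hk, mul_zero, zero_sub]
        exact neg_mem (h0 j hj)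
      · rw [if_neg hj, if_neg hk, mul_zero, mul_zero, sub_zero]
        exact zero_mem _)
    have h1 := coeff_eq_of_sub_mem hU (hu i) ha
    rw [if_pos rfl, tak_coeff0 hin, coeff_monomial, if_pos rfl] at h1
    exact one_ne_zero h1
  · have h0 : ∀ j ∈ S, ∀ l ∉ S, monomial (Finsupp.single l N) (1 : K) *
        monomial (a + Finsupp.single j N) (1 : K) ∈ L K U := by
      intro j hj l hl
      rw [tak_mul]
      refine monomial_mem_L ?_
      by_contra hk'
      exact hS j hj l hl (tak_edge hU hN le_rfl hk')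
    obtain ⟨u, hu⟩ := (tak_koszul h N).2
      (fun j => if j ∈ S then monomial (a + Finsupp.single j N) 1 else 0) (by
      intro j l
      by_cases hj : j ∈ S <;> by_cases hl : l ∈ S
      · rw [if_pos hj, if_pos hl, tak_mul, tak_mul, add_right_comm, sub_self]
        exact zero_mem _
      · rw [if_pos hj, if_neg hl, mul_zero, sub_zero]
        exact h0 j hj l hl
      · rw [if_neg hj, if_pos hl, mul_zero, zero_sub]
        exact neg_mem (h0 l hl j hj)
      · rw [if_neg hj, if_neg hl, mul_zero, mul_zero, sub_zero]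
        exact zero_mem _)
    have h1 := coeff_eq_of_sub_mem hU (hu i) (hvi N)
    have h2 := coeff_eq_of_sub_mem hU (hu k) (hvk N)
    rw [if_pos hi, tak_coeff, coeff_monomial, if_pos rfl] at h1
    rw [if_neg hk, tak_coeff, coeff_zero] at h2
    exact one_ne_zero (h1.trans h2.symm)

end Pool.Agent.Lib.MP_30655b_al.TH
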